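import Mathlib
import Pool.Agent.N753.SU.All

/-!
# Sets of pairs with a power saving in all boxes
-/

set_option autoImplicit false
set_option linter.unusedSectionVars false

namespace Pool.Agent.N445.UB

open NumberField IsDedekindDomain Finset Pool.Agent.H691R3
open Pool.Agent.TH876.Loc hiding mx mx_nonneg
open Pool.Agent.N753.LS Pool.Agent.N753.SF Pool.Agent.N753.SU Polynomial

variable {K : Type} [Field K] [NumberField K]

variable (K) in
/-- the points `(x_0, x_1)` in `A`, with `x_1` outside a finite set, are few in all boxes whose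
longer side is the one of `x_0` -/
def T2 (A : ℝ → (Fin 2 → K) → Prop) : Prop :=
  ∃ (Z : Finset K) (ν C : ℝ), 0 < ν ∧ ν ≤ 1 ∧ 0 < C ∧ ∀ H1 H : ℝ, 0 ≤ H1 → H1 ≤ H →
    ∀ S : Finset (Fin 2 → K), (∀ x ∈ S, x 1 ∉ Z ∧ hr (aff (x 1)) ≤ H1 ∧ hr (aff (x 0)) ≤ H ∧
      A H x) → (S.card : ℝ) ≤ C * Real.exp (2 * H1 + (2 - ν) * H)

theorem vec2 (x : Fin 2 → K) : ![x 0, x 1] = x := by
  funext i
  fin_cases i <;> rfl

theorem T2.mono {A B : ℝ → (Fin 2 → K) → Prop} (hB : T2 K B) (Z' : Finset K)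
    (h : ∀ H x, 0 ≤ H → x 1 ∉ Z' → hr (aff (x 1)) ≤ H → hr (aff (x 0)) ≤ H → A H x → B H x) :
    T2 K A := by
  classical
  obtain ⟨Z, ν, C, hν, hν1, hC, hB⟩ := hB
  refine ⟨Z ∪ Z', ν, C, hν, hν1, hC, fun H1 H hH1 hH S hS => hB H1 H hH1 hH S fun x hx => ?_⟩
  obtain ⟨h1, h2, h3, h4⟩ := hS x hx
  rw [Finset.mem_union, not_or] at h1
  exact ⟨h1.1, h2, h3, h H x (hH1.trans hH) h1.2 (h2.trans hH) h3 h4⟩

theorem T2.or {A B : ℝ → (Fin 2 → K) → Prop} (hA : T2 K A) (hB : T2 K B) :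
    T2 K (fun H x => A H x ∨ B H x) := by
  classical
  obtain ⟨Z1, ν1, C1, hν1, hν11, hC1, hA⟩ := hA
  obtain ⟨Z2, ν2, C2, hν2, hν21, hC2, hB⟩ := hB
  refine ⟨Z1 ∪ Z2, min ν1 ν2, C1 + C2, lt_min hν1 hν2, (min_le_left _ _).trans hν11,
    by positivity, ?_⟩
  intro H1 H hH1 hH S hS
  have hH0 : 0 ≤ H := hH1.trans hH
  have h1 := hA H1 H hH1 hH (S.filter fun x => A H x) fun x hx => by
    obtain ⟨e1, e2, e3, -⟩ := hS x (Finset.mem_filter.1 hx).1
    rw [Finset.mem_union, not_or] at e1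
    exact ⟨e1.1, e2, e3, (Finset.mem_filter.1 hx).2⟩
  have h2 := hB H1 H hH1 hH (S.filter fun x => ¬ A H x) fun x hx => by
    obtain ⟨e1, e2, e3, e4⟩ := hS x (Finset.mem_filter.1 hx).1
    rw [Finset.mem_union, not_or] at e1
    exact ⟨e1.2, e2, e3, e4.resolve_left (Finset.mem_filter.1 hx).2⟩
  have h3 : (S.card : ℝ) = (S.filter fun x => A H x).card + (S.filter fun x => ¬ A H x).card := by
    exact_mod_cast (Finset.card_filter_add_card_filter_not (s := S) (p := fun x => A H x)).symm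
  have h4 : Real.exp (2 * H1 + (2 - ν1) * H) ≤ Real.exp (2 * H1 + (2 - min ν1 ν2) * H) :=
    Real.exp_le_exp.2 (add_le_add le_rfl
      (mul_le_mul_of_nonneg_right (sub_le_sub_left (min_le_left _ _) _) hH0))
  have h5 : Real.exp (2 * H1 + (2 - ν2) * H) ≤ Real.exp (2 * H1 + (2 - min ν1 ν2) * H) :=
    Real.exp_le_exp.2 (add_le_add le_rfl
      (mul_le_mul_of_nonneg_right (sub_le_sub_left (min_le_right _ _) _) hH0))
  have h6 := mul_le_mul_of_nonneg_left h4 hC1.le
  have h7 := mul_le_mul_of_nonneg_left h5 hC2.le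
  rw [h3, add_mul]
  linarith

theorem t2_false {A : ℝ → (Fin 2 → K) → Prop} (h : ∀ H x, 0 ≤ H → ¬ A H x) : T2 K A := by
  refine ⟨∅, 1, 1, one_pos, le_rfl, one_pos, fun H1 H hH1 hH S hS => ?_⟩
  have : S = ∅ := Finset.eq_empty_of_forall_notMem fun x hx =>
    h H x (hH1.trans hH) (hS x hx).2.2.2
  rw [this, Finset.card_empty, Nat.cast_zero]
  positivity

theorem T2.ex {ι : Type} (s : Finset ι) {A : ι → ℝ → (Fin 2 → K) → Prop}
    (h : ∀ k ∈ s, T2 K (A k)) : T2 K (fun H x => ∃ k ∈ s, A k H x) := by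
  classical
  induction s using Finset.induction_on with
  | empty => exact t2_false fun H x _ => by simp
  | insert a s ha ih =>
    refine ((h a (Finset.mem_insert_self a s)).or
      (ih fun k hk => h k (Finset.mem_insert_of_mem hk))).mono ∅ ?_
    rintro H x _ _ _ _ ⟨k, hk, hx⟩
    rcases Finset.mem_insert.1 hk with rfl | hk
    · exact Or.inl hx
    · exact Or.inr ⟨k, hk, hx⟩

/-- a bound on the fibres -/
theorem T2.fib {A : ℝ → (Fin 2 → K) → Prop} (Z : Finset K) {ν C : ℝ} (hν : 0 < ν) (hν1 : ν ≤ 1)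
    (hC : 0 < C) (h : ∀ H : ℝ, 0 ≤ H → ∀ y : K, y ∉ Z → hr (aff y) ≤ H → ∀ S' : Finset K,
      (∀ z ∈ S', hr (aff z) ≤ H ∧ A H ![z, y]) → (S'.card : ℝ) ≤ C * Real.exp ((2 - ν) * H)) :
    T2 K A := by
  classical
  obtain ⟨C3, hC3, h3⟩ := count_all K (δ := ν / 2) (by positivity)
  refine ⟨Z, ν / 2, C3 * C, by positivity, by linarith, by positivity, ?_⟩
  intro H1 H hH1 hH S hS
  have hH0 : 0 ≤ H := hH1.trans hH
  have hmaps : ∀ x ∈ S, x 1 ∈ S.image fun x => x 1 := fun x hx => Finset.mem_image_of_mem _ hx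
  have hsum : (S.card : ℝ) = ∑ y ∈ S.image (fun x => x 1),
      ((S.filter fun x => x 1 = y).card : ℝ) := by
    have := Finset.card_eq_sum_card_fiberwise hmaps
    exact_mod_cast this
  have hf : ∀ y ∈ S.image (fun x => x 1), ((S.filter fun x => x 1 = y).card : ℝ) ≤
      C * Real.exp ((2 - ν) * H) := by
    intro y hy
    obtain ⟨x0, hx0, rfl⟩ := Finset.mem_image.1 hy
    obtain ⟨e1, e2, -, -⟩ := hS x0 hx0
    have hinj : Set.InjOn (fun x : Fin 2 → K => x 0)
        ((S.filter fun x => x 1 = x0 1 : Finset (Fin 2 → K)) : Set (Fin 2 → K)) := by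
      intro a ha b hb hab
      rw [Finset.mem_coe, Finset.mem_filter] at ha hb
      rw [← vec2 a, ← vec2 b, ha.2, hb.2]
      have hab' : a 0 = b 0 := hab
      rw [hab']
    rw [← Finset.card_image_of_injOn hinj]
    refine h H hH0 (x0 1) e1 (e2.trans hH) _ fun z hz => ?_
    obtain ⟨x, hx, rfl⟩ := Finset.mem_image.1 hz
    obtain ⟨hx1, hx2⟩ := Finset.mem_filter.1 hx
    obtain ⟨-, -, e5, e6⟩ := hS x hx1
    refine ⟨e5, ?_⟩
    rw [← hx2, vec2]
    exact e6
  rw [hsum]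
  refine (Finset.sum_le_sum hf).trans ?_
  rw [Finset.sum_const, nsmul_eq_mul]
  have hc : (((S.image fun x => x 1).card : ℕ) : ℝ) ≤ C3 * Real.exp ((2 + ν / 2) * H1) := by
    refine h3 H1 hH1 _ fun y hy => ?_
    obtain ⟨x, hx, rfl⟩ := Finset.mem_image.1 hy
    exact (hS x hx).2.1
  refine (mul_le_mul_of_nonneg_right hc (by positivity)).trans ?_
  rw [mul_mul_mul_comm, ← Real.exp_add]
  refine mul_le_mul_of_nonneg_left (Real.exp_le_exp.2 ?_) (by positivity)
  have : ν / 2 * H1 ≤ ν / 2 * H := mul_le_mul_of_nonneg_left hH (by positivity)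
  linarith

/-- a condition on the coordinate of the longer side -/
theorem T2.top {A : ℝ → (Fin 1 → K) → Prop} (hA : Thin K 1 A) :
    T2 K (fun H x => A H (fun _ => x 0)) := by
  classical
  obtain ⟨ν, C, hν, hν1, hC, hA⟩ := hA
  refine T2.fib ∅ hν hν1 hC fun H hH y _ _ S' hS' => ?_
  have hinj : Function.Injective fun (z : K) (_ : Fin 1) => z := fun a b hab => congrFun hab 0
  rw [← Finset.card_image_of_injective S' hinj]
  refine (hA H hH _ fun y hy => ?_).trans (le_of_eq (by norm_num))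
  obtain ⟨z, hz, rfl⟩ := Finset.mem_image.1 hy
  exact ⟨fun _ => (hS' z hz).1, (hS' z hz).2⟩

/-- a condition on the coordinate of the shorter side -/
theorem T2.base {B : ℝ → K → Prop} {ν C : ℝ} (hν : 0 < ν) (hν1 : ν ≤ 1) (hC : 0 < C)
    (h : ∀ H1 H : ℝ, 0 ≤ H1 → H1 ≤ H → ∀ T : Finset K, (∀ y ∈ T, hr (aff y) ≤ H1 ∧ B H y) →
      (T.card : ℝ) ≤ C * Real.exp (2 * H1 - ν * H)) :
    T2 K (fun H x => B H (x 1)) := by
  classical
  obtain ⟨C3, hC3, h3⟩ := count_all K (δ := ν / 2) (by positivity)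
  refine ⟨∅, ν / 2, C * C3, by positivity, by linarith, by positivity, ?_⟩
  intro H1 H hH1 hH S hS
  have hH0 : 0 ≤ H := hH1.trans hH
  have h1 := h H1 H hH1 hH (S.image fun x => x 1) fun y hy => by
    obtain ⟨x, hx, rfl⟩ := Finset.mem_image.1 hy
    exact ⟨(hS x hx).2.1, (hS x hx).2.2.2⟩
  have h2 := h3 H hH0 (S.image fun x => x 0) fun y hy => by
    obtain ⟨x, hx, rfl⟩ := Finset.mem_image.1 hy
    exact (hS x hx).2.2.1
  have hinj : Function.Injective fun (x : Fin 2 → K) => (x 1, x 0) := by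
    intro a b hab
    have e1 : a 1 = b 1 := congrArg Prod.fst hab
    have e2 : a 0 = b 0 := congrArg Prod.snd hab
    rw [← vec2 a, ← vec2 b, e1, e2]
  have h4 : S.card ≤ (S.image fun x => x 1).card * (S.image fun x => x 0).card := by
    rw [← Finset.card_product, ← Finset.card_image_of_injective S hinj]
    refine Finset.card_le_card fun p hp => ?_
    obtain ⟨x, hx, rfl⟩ := Finset.mem_image.1 hp
    exact Finset.mem_product.2 ⟨Finset.mem_image_of_mem _ hx, Finset.mem_image_of_mem _ hx⟩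
  have h5 : (S.card : ℝ) ≤ ((S.image fun x => x 1).card : ℝ) * ((S.image fun x => x 0).card : ℝ) := by
    exact_mod_cast h4
  refine h5.trans ((mul_le_mul h1 h2 (Nat.cast_nonneg _) (by positivity)).trans ?_)
  rw [mul_mul_mul_comm, ← Real.exp_add]
  refine mul_le_mul_of_nonneg_left (Real.exp_le_exp.2 ?_) (by positivity)
  linarith

/-- a condition on the coordinate of the shorter side -/
theorem T2.base_thin {A : ℝ → (Fin 1 → K) → Prop} (hA : Thin K 1 A) {c : ℝ} (hc : 0 < c)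
    (hc1 : c ≤ 1) {B : ℝ → K → Prop} (h : ∀ H1 H y, 0 ≤ H1 → H1 ≤ H → hr (aff y) ≤ H1 → B H y →
      c * H ≤ H1 ∧ A H1 (fun _ => y)) :
    T2 K (fun H x => B H (x 1)) := by
  classical
  obtain ⟨ν, C, hν, hν1, hC, hA⟩ := hA
  refine T2.base (ν := ν * c) (C := C) (by positivity) (by nlinarith) hC ?_
  intro H1 H hH1 hH T hT
  rcases T.eq_empty_or_nonempty with h0 | ⟨y0, hy0⟩
  · rw [h0, Finset.card_empty, Nat.cast_zero]
    positivity
  have hcH := (h H1 H y0 hH1 hH (hT y0 hy0).1 (hT y0 hy0).2).1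
  have hinj : Function.Injective fun (z : K) (_ : Fin 1) => z := fun a b hab => congrFun hab 0
  rw [← Finset.card_image_of_injective T hinj]
  refine (hA H1 hH1 _ fun y hy => ?_).trans ?_
  · obtain ⟨z, hz, rfl⟩ := Finset.mem_image.1 hy
    exact ⟨fun _ => (hT z hz).1, (h H1 H z hH1 hH (hT z hz).1 (hT z hz).2).2⟩
  · refine mul_le_mul_of_nonneg_left (Real.exp_le_exp.2 ?_) hC.le
    have := mul_le_mul_of_nonneg_left hcH hν.le
    push_cast
    nlinarith

theorem t2_bdd (H0 : ℝ) : T2 K (fun H _ => H ≤ H0) := by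
  classical
  obtain ⟨C, hC, h⟩ := count_all K (δ := 1) one_pos
  refine T2.fib ∅ (ν := 1) (C := C * Real.exp (3 * max H0 0)) one_pos le_rfl (by positivity) ?_
  intro H hH y _ _ S' hS'
  rcases S'.eq_empty_or_nonempty with h0 | ⟨x, hx⟩
  · rw [h0, Finset.card_empty, Nat.cast_zero]
    positivity
  refine (h H hH S' fun y hy => (hS' y hy).1).trans ?_
  rw [mul_assoc, ← Real.exp_add]
  refine mul_le_mul_of_nonneg_left (Real.exp_le_exp.2 ?_) hC.le
  have h1 : H ≤ max H0 0 := (hS' x hx).2.trans (le_max_left _ _)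
  linarith

end Pool.Agent.N445.UB
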