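import Mathlib
import Pool.Agent.N445.UB.B1
import Pool.Agent.N765.SU_G
import Pool.Agent.N199.SU_B

/-!
# The height of the fibres of a curve in the product of two lines
-/

set_option autoImplicit false
set_option linter.unusedSectionVars false

namespace Pool.Agent.N445.UB

open NumberField IsDedekindDomain Finset Pool.Agent.H691R3
open Pool.Agent.TH876.Loc hiding mx mx_nonneg
open Pool.Agent.N753.LS Pool.Agent.N753.SF Pool.Agent.N753.SU Polynomial

section Alg

variable {K : Type} [Field K]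

/-- the polynomial in `K[X][X]`: the inner variable is `X_1`, the outer one is `X_0` -/
noncomputable def bv (F : MvPolynomial (Fin 2) K) : K[X][X] :=
  (MvPolynomial.finSuccEquiv K 1 F).map
    ((MvPolynomial.uniqueAlgEquiv K (Fin 1)).toRingEquiv : MvPolynomial (Fin 1) K →+* K[X])

theorem degreeOf_le_natDegree (p : MvPolynomial (Fin 1) K) :
    p.degreeOf 0 ≤ (MvPolynomial.uniqueAlgEquiv K (Fin 1) p).natDegree := by
  classical
  rcases eq_or_ne p 0 with rfl | hp
  · simp
  rw [MvPolynomial.degreeOf_eq_sup]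
  refine Finset.sup_le fun d hd => ?_
  refine Polynomial.le_natDegree_of_ne_zero ?_
  rw [MvPolynomial.coeff_uniqueAlgEquiv]
  have : Finsupp.single (default : Fin 1) (d 0) = d := by
    rw [Finsupp.unique_single d]
    simp
  rw [this]
  exact MvPolynomial.mem_support_iff.1 hd

theorem natDegree_bv (F : MvPolynomial (Fin 2) K) : (bv F).natDegree = F.degreeOf 0 := by
  unfold bv
  rw [Polynomial.natDegree_map_eq_of_injective (RingEquiv.injective _),
    MvPolynomial.natDegree_finSuccEquiv]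

theorem irreducible_bv {F : MvPolynomial (Fin 2) K} (hF : Irreducible F) : Irreducible (bv F) := by
  have h1 : Irreducible (MvPolynomial.finSuccEquiv K 1 F) :=
    (MulEquiv.irreducible_iff (MvPolynomial.finSuccEquiv K 1)).2 hF
  exact (MulEquiv.irreducible_iff
    (Polynomial.mapEquiv ((MvPolynomial.uniqueAlgEquiv K (Fin 1)).toRingEquiv))).2 h1

theorem fib_bv (F : MvPolynomial (Fin 2) K) (y : K) : fib (bv F) y = fibm F (fun _ => y) := by
  unfold fib bv fibm
  rw [Polynomial.map_map]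
  congr 1
  refine RingHom.ext fun p => ?_
  have h := MvPolynomial.eval₂_const_uniqueAlgEquiv (σ := Fin 1) (f := p)
    (φ := RingHom.id K) (a := y)
  rw [RingHom.comp_apply, Polynomial.coe_evalRingHom, Polynomial.eval, MvPolynomial.eval]
  exact h

theorem dgi_bv (hB3 : StmB3) {F : MvPolynomial (Fin 2) K} (hF : F ≠ 0) :
    F.degreeOf 1 ≤ dgi (bv F) := by
  obtain ⟨j, hj, h1, h2⟩ := hB3 K 1 F 0 hF
  have e1 : (Fin.succ 0 : Fin 2) = 1 := rfl
  rw [e1] at h1
  rw [← h1]
  refine (degreeOf_le_natDegree _).trans ?_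
  unfold dgi
  have hc : (bv F).coeff j = MvPolynomial.uniqueAlgEquiv K (Fin 1)
      ((MvPolynomial.finSuccEquiv K 1 F).coeff j) := by
    unfold bv
    rw [Polynomial.coeff_map]
    rfl
  rw [← hc]
  refine Finset.le_sup (f := fun j => ((bv F).coeff j).natDegree) ?_
  rw [Polynomial.mem_support_iff, hc]
  exact fun h => h2 ((AlgEquiv.injective _) (by rw [h, map_zero]))

end Alg

variable {K : Type} [Field K] [NumberField K]

/-- the height of the fibres -/
theorem ht_fibm {F : MvPolynomial (Fin 2) K} (hF : Irreducible F) (hd : 1 ≤ F.degreeOf 0) :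
    ∃ C : ℝ, 0 ≤ C ∧ ∀ y : K, fibm F (fun _ => y) ≠ 0 ∧
      (F.degreeOf 1 : ℝ) * hr (aff y) - C ≤ ht (fibm F (fun _ => y)) := by
  obtain ⟨c, hc0, hcf, hc⟩ := Pool.Agent.N765.SU.stmG K (bv F) (irreducible_bv hF)
    (by rw [natDegree_bv]; exact hd)
  refine ⟨∑ p ∈ hcf.toFinset, c p, Finset.sum_nonneg fun p _ => hc0 p, fun y => ?_⟩
  obtain ⟨h0, h1⟩ := hc y
  rw [fib_bv] at h0
  simp only [fib_bv] at h1
  refine ⟨h0, ?_⟩
  classical
  obtain ⟨T, hT⟩ : ∃ T : Finset (Pr K), T = (gn_fin h0).toFinset ∪ ((mx_fin y).toFinset ∪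
    hcf.toFinset.toRight) := ⟨_, rfl⟩
  have hTn : ∀ v ∉ T, gn (Sum.inr v) (fibm F fun _ => y) = 0 ∧ mx (Sum.inr v) y = 0 ∧
      c (Sum.inr v) = 0 := by
    intro v hv
    rw [hT] at hv
    simp only [Finset.mem_union, not_or, Finset.mem_toRight, Set.Finite.mem_toFinset,
      Set.mem_ofPred_eq, not_not] at hv
    exact hv
  rw [ht_eq T fun v hv => (hTn v hv).1, ← sum_mx y T fun v hv => (hTn v hv).2.1]
  have hdg : (F.degreeOf 1 : ℝ) ≤ dgi (bv F) := by
    exact_mod_cast dgi_bv Pool.Agent.N199.SU.stmB3 hF.ne_zero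
  have h2 : ∀ p : Pl K, (F.degreeOf 1 : ℝ) * mx p y - c p ≤ gn p (fibm F fun _ => y) := by
    intro p
    have := mul_le_mul_of_nonneg_right hdg (mx_nonneg p y)
    linarith [(h1 p).1]
  have h3 : ∑ w : InfinitePlace K, ((F.degreeOf 1 : ℝ) * mx (Sum.inl w) y - c (Sum.inl w)) ≤
      ∑ w : InfinitePlace K, gn (Sum.inl w) (fibm F fun _ => y) :=
    Finset.sum_le_sum fun w _ => h2 _
  have h4 : ∑ v ∈ T, ((F.degreeOf 1 : ℝ) * mx (Sum.inr v) y - c (Sum.inr v)) ≤
      ∑ v ∈ T, gn (Sum.inr v) (fibm F fun _ => y) :=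
    Finset.sum_le_sum fun w _ => h2 _
  rw [Finset.sum_sub_distrib, ← Finset.mul_sum] at h3 h4
  have e3 : ∑ w : InfinitePlace K, c (Sum.inl w) + ∑ v ∈ T, c (Sum.inr v) =
      ∑ p ∈ hcf.toFinset, c p := by
    rw [← Finset.sum_disjSum (s := Finset.univ) (t := T) (f := c)]
    symm
    refine Finset.sum_subset ?_ ?_
    · intro p hp
      rcases p with w | v
      · exact Finset.inl_mem_disjSum.2 (Finset.mem_univ w)
      · rw [Finset.inr_mem_disjSum]
        by_contra hcon
        have := (hTn v hcon).2.2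
        rw [Set.Finite.mem_toFinset] at hp
        exact hp this
    · intro p _ hp
      rw [Set.Finite.mem_toFinset] at hp
      by_contra hcon
      exact hp hcon
  linarith

end Pool.Agent.N445.UB
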