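import Mathlib
import Pool.Agent.N445.UB.B3
import Pool.Agent.N753.SU.Cnt

/-!
# Components which do not depend on the coordinate of the longer side; common primes
-/

set_option autoImplicit false
set_option linter.unusedSectionVars false

namespace Pool.Agent.N445.UB

open NumberField IsDedekindDomain Finset Pool.Agent.H691R3
open Pool.Agent.TH876.Loc hiding mx mx_nonneg
open Pool.Agent.N753.LS Pool.Agent.N753.SF Pool.Agent.N753.SU Polynomial

variable {K : Type} [Field K] [NumberField K]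

open Classical in
/-- few common primes of the base and of a component, on the fibres -/
theorem ovl_fib (hUM : StmUM) (F : MvPolynomial (Fin 2) K) (hF : Irreducible F)
    (he : 1 ≤ F.degreeOf 0) {κ : ℝ} (hκ0 : 0 < κ) (hκ1 : κ ≤ 1) {C0 : ℝ} (hC0 : 0 ≤ C0)
    (Bad : K → Finset (Pr K)) :
    T2 K (fun H x => MvPolynomial.eval x F ≠ 0 ∧
      ∑ v ∈ Bad (x 1), Real.log (Nv v) ≤ C0 * (1 + H) ∧
      κ * H ≤ ∑ v ∈ Bad (x 1) ∩ ddm F x, Real.log (Nv v)) := by
  obtain ⟨c, hc0, hcf, hc⟩ := fib_up hUM F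
  obtain ⟨c1, hc10, hlow⟩ := ht_fibm hF he
  obtain ⟨e, he'⟩ : ∃ e : ℕ, e = F.degreeOf 0 := ⟨_, rfl⟩
  rw [← he'] at he
  have he0 : (0 : ℝ) < e := by exact_mod_cast he
  obtain ⟨ct, hct⟩ : ∃ ct : ℝ, ct = ∑ p ∈ hcf.toFinset, c p := ⟨_, rfl⟩
  have hct0 : 0 ≤ ct := by
    rw [hct]
    exact Finset.sum_nonneg fun p _ => hc0 p
  obtain ⟨d, hd⟩ : ∃ d : Fin 1 → ℝ, d = fun i => (F.degreeOf (Fin.succ i) : ℝ) := ⟨_, rfl⟩
  have hd0 : ∀ i, 0 ≤ d i := fun i => by rw [hd]; exact Nat.cast_nonneg _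
  have hdi : ∀ i, (F.degreeOf (Fin.succ i) : ℝ) = d i := fun i => by rw [hd]
  have hd1 : (F.degreeOf 1 : ℝ) = d 0 := by rw [hd]; rfl
  simp only [hdi] at hc
  obtain ⟨l, hl⟩ : ∃ l : ℝ, l = (e + 1) * lossK K := ⟨_, rfl⟩
  have hl0 : 0 ≤ l := by
    rw [hl]
    exact mul_nonneg (by positivity) (lossK_nonneg K)
  obtain ⟨ν2, C2, hν2, hν21, hC2, h2⟩ := cnt0 K e (κ := κ / 2) (by positivity) (by linarith)
    (R := d 0 + ct) (by have := hd0 0; positivity) hC0
  have hmain : T2 K (fun H x => 2 * (ct + c1 + l) / κ < H ∧ MvPolynomial.eval x F ≠ 0 ∧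
      ∑ v ∈ Bad (x 1), Real.log (Nv v) ≤ C0 * (1 + H) ∧
      κ * H ≤ ∑ v ∈ Bad (x 1) ∩ ddm F x, Real.log (Nv v)) := by
    refine T2.fib ∅ hν2 hν21 hC2 ?_
    intro H hH y _ hyH S' hS'
    rcases S'.eq_empty_or_nonempty with h0 | ⟨z0, hz0⟩
    · rw [h0, Finset.card_empty, Nat.cast_zero]
      positivity
    obtain ⟨hg0, hlow1⟩ := hlow y
    obtain ⟨g, hg⟩ : ∃ g : K[X], g = fibm F (fun _ => y) := ⟨_, rfl⟩
    rw [← hg] at hg0 hlow1
    have hgd : g.natDegree ≤ e := by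
      rw [hg, he']
      exact natDegree_fibm F (fun _ => y)
    have hge : ∀ z, g.eval z = MvPolynomial.eval (![z, y] : Fin 2 → K) F :=
      fun z => by rw [hg, eval_fibm, cons_vec]
    have hcy := hc (fun _ => y) (by rw [← hg]; exact hg0)
    rw [← hg] at hcy
    have hL2 : ht g ≤ d 0 * hr (aff y) + ct := by
      rw [hct]
      have := ht_le2 hd0 hc0 hcf hg0 hcy
      rwa [Fin.sum_univ_one] at this
    have hdH : d 0 * hr (aff y) ≤ d 0 * H := mul_le_mul_of_nonneg_left hyH (hd0 0)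
    have hB := (hS' z0 hz0).2.2.2.1
    have e51 : ∀ z : K, (![z, y] : Fin 2 → K) 1 = y := fun z => rfl
    rw [e51] at hB
    exact h2 H hH g hg0 hgd (by
      refine hL2.trans ?_
      have h6 : 0 ≤ ct * H := by positivity
      have h7 := hd0 0
      linarith) (Bad y) hB S' (by
      intro z hz
      obtain ⟨hzH, hHc, hx0, -, hxs⟩ := hS' z hz
      rw [e51] at hxs
      rw [div_lt_iff₀ hκ0] at hHc
      have hgz0 : g.eval z ≠ 0 := by
        rw [hge]
        exact hx0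
      refine ⟨hzH, Or.inr ?_⟩
      obtain ⟨U, hU⟩ : ∃ U, U = Bad y ∩ ddm F (![z, y] : Fin 2 → K) := ⟨_, rfl⟩
      rw [← hU] at hxs
      have e1 : ∑ v ∈ U, Real.log (Nv v) ≤ ∑ v ∈ U, (mv (Sum.inr v) e g z +
          -gn (Sum.inr v) g) := by
        refine Finset.sum_le_sum fun v hv => ?_
        rw [hU] at hv
        obtain ⟨-, hv2⟩ := Finset.mem_inter.1 hv
        rw [mem_ddm hx0] at hv2
        have e2 := log_ge_of_lt hx0 hv2.2
        have e5 : 0 ≤ (e : ℝ) * mx (Sum.inr v) z :=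
          mul_nonneg (Nat.cast_nonneg _) (mx_nonneg _ _)
        unfold mv
        rw [hge]
        linarith
      rw [Finset.sum_add_distrib] at e1
      have e2 : ∑ v ∈ U, mv (Sum.inr v) e g z ≤ ∑ v ∈ Bad y, mv (Sum.inr v) e g z := by
        refine Finset.sum_le_sum_of_subset_of_nonneg ?_ fun v _ _ => mv_nonneg v hgd hgz0
        rw [hU]
        exact Finset.inter_subset_left
      have e3 := def_sum hd0 hc0 hcf hg0 hcy U
      rw [← hct, Fin.sum_univ_one] at e3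
      have e4 : -l ≤ ∑ w : InfinitePlace K, mv (Sum.inl w) e g z := by
        have hlsum : ∑ w : InfinitePlace K, ((e : ℝ) + 1) * loss (Sum.inl w : Pl K) = l := by
          rw [hl, ← Finset.mul_sum]
          rfl
        rw [← hlsum, ← Finset.sum_neg_distrib]
        refine Finset.sum_le_sum fun w _ => ?_
        have := mv_ge (Sum.inl w) hgd hgz0
        linarith
      rw [hd1] at hlow1
      linarith)
  refine (hmain.or (t2_bdd (2 * (ct + c1 + l) / κ))).mono ∅ ?_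
  rintro H x - - - - hx
  by_cases h : H ≤ 2 * (ct + c1 + l) / κ
  · exact Or.inr h
  · exact Or.inl ⟨not_le.1 h, hx⟩

open Classical in
/-- few primes of the base divide the denominator of `x_0` -/
theorem ovl_pd {κ : ℝ} (hκ0 : 0 < κ) (hκ1 : κ ≤ 1) {C0 : ℝ} (hC0 : 0 ≤ C0)
    (Bad : K → Finset (Pr K)) :
    T2 K (fun H x => ∑ v ∈ Bad (x 1), Real.log (Nv v) ≤ C0 * (1 + H) ∧
      κ * H ≤ ∑ v ∈ Bad (x 1) ∩ pd (x 0), Real.log (Nv v)) := by
  obtain ⟨ν2, C2, hν2, hν21, hC2, h2⟩ := cnt0 K 1 hκ0 hκ1 (R := 0) le_rfl hC0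
  refine T2.fib ∅ hν2 hν21 hC2 ?_
  intro H hH y _ hyH S' hS'
  rcases S'.eq_empty_or_nonempty with h0 | ⟨z0, hz0⟩
  · rw [h0, Finset.card_empty, Nat.cast_zero]
    positivity
  have hB := (hS' z0 hz0).2.1
  have e51 : ∀ z : K, (![z, y] : Fin 2 → K) 1 = y := fun z => rfl
  have e50 : ∀ z : K, (![z, y] : Fin 2 → K) 0 = z := fun z => rfl
  rw [e51] at hB
  refine h2 H hH 1 one_ne_zero (by simp) ?_ (Bad y) hB S' ?_
  · rw [zero_mul]
    unfold ht
    simp only [gn_one', Finset.sum_const_zero, finsum_zero, add_zero, le_refl]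
  · intro z hz
    obtain ⟨h3, -, h4⟩ := hS' z hz
    rw [e51, e50] at h4
    refine ⟨h3, Or.inr (h4.trans ?_)⟩
    have hmv : ∀ p : Pl K, mv p 1 (1 : K[X]) z = mx p z := by
      intro p
      unfold mv
      rw [gn_one', eval_one, nm_one]
      push_cast
      ring
    simp only [hmv]
    have h6 : 0 ≤ ∑ w : InfinitePlace K, mx (Sum.inl w) z :=
      Finset.sum_nonneg fun w _ => mx_nonneg _ _
    have h7 : ∑ v ∈ Bad y ∩ pd z, Real.log (Nv v) ≤ ∑ v ∈ Bad y ∩ pd z,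
        mx (Sum.inr v) z :=
      Finset.sum_le_sum fun v hv => log_fv_ge v (mem_pd.1 (Finset.mem_inter.1 hv).2)
    have h8 : ∑ v ∈ Bad y ∩ pd z, mx (Sum.inr v) z ≤ ∑ v ∈ Bad y, mx (Sum.inr v) z :=
      Finset.sum_le_sum_of_subset_of_nonneg Finset.inter_subset_left fun v _ _ =>
        mx_nonneg _ _
    linarith

/-- the primes in the denominator -/
theorem sum_pd_le (y : K) : ∑ v ∈ pd y, Real.log (Nv v) ≤ hr (aff y) := by
  have h3 : ∑ v ∈ pd y, Real.log (Nv v) ≤ ∑ v ∈ pd y, mx (Sum.inr v) y :=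
    Finset.sum_le_sum fun v hv => log_fv_ge v (mem_pd.1 hv)
  have h4 := sum_mx_le y (pd y)
  have h5 : 0 ≤ ∑ w : InfinitePlace K, mx (Sum.inl w) y :=
    Finset.sum_nonneg fun w _ => mx_nonneg _ _
  linarith

open Classical in
/-- two components at infinity -/
theorem ovl_inf {κ : ℝ} (hκ0 : 0 < κ) (hκ1 : κ ≤ 1) :
    T2 K (fun H x => κ * H ≤ ∑ v ∈ pd (x 1) ∩ pd (x 0), Real.log (Nv v)) := by
  refine (ovl_pd hκ0 hκ1 (C0 := 1) zero_le_one pd).mono ∅ ?_
  intro H x hH _ hx1 _ hx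
  refine ⟨?_, hx⟩
  have := sum_pd_le (x 1)
  linarith

end Pool.Agent.N445.UB
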