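import Mathlib
import Pool.Agent.N445.UB.B4

/-!
# Components which depend on the coordinate of the shorter side only
-/

set_option autoImplicit false
set_option linter.unusedSectionVars false

namespace Pool.Agent.N445.UB

open NumberField IsDedekindDomain Finset Pool.Agent.H691R3
open Pool.Agent.TH876.Loc hiding mx mx_nonneg
open Pool.Agent.N753.LS Pool.Agent.N753.SF Pool.Agent.N753.SU Polynomial

section Alg

variable {K : Type} [Field K]

/-- the polynomial in `x_1` -/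
noncomputable def pb (F : MvPolynomial (Fin 2) K) : MvPolynomial (Fin 1) K :=
  (MvPolynomial.finSuccEquiv K 1 F).coeff 0

theorem finSucc_eq {F : MvPolynomial (Fin 2) K} (h0 : F.degreeOf 0 = 0) :
    MvPolynomial.finSuccEquiv K 1 F = Polynomial.C (pb F) := by
  refine Polynomial.eq_C_of_natDegree_eq_zero ?_
  rw [MvPolynomial.natDegree_finSuccEquiv, h0]

theorem eval_pb {F : MvPolynomial (Fin 2) K} (h0 : F.degreeOf 0 = 0) (x : Fin 2 → K) :
    MvPolynomial.eval x F = MvPolynomial.eval (fun _ => x 1) (pb F) := by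
  have h1 := MvPolynomial.eval_eq_eval_mv_eval' (fun _ : Fin 1 => x 1) (x 0) F
  have h2 : (Fin.cons (x 0) (fun _ => x 1) : Fin 2 → K) = x := by
    funext i
    fin_cases i <;> rfl
  rw [h2] at h1
  rw [h1, finSucc_eq h0, Polynomial.map_C, Polynomial.eval_C]

theorem irreducible_pb {F : MvPolynomial (Fin 2) K} (h0 : F.degreeOf 0 = 0)
    (hF : Irreducible F) : Irreducible (pb F) := by
  have h1 : Irreducible (MvPolynomial.finSuccEquiv K 1 F) :=
    (MulEquiv.irreducible_iff (MvPolynomial.finSuccEquiv K 1)).2 hF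
  rw [finSucc_eq h0] at h1
  refine ⟨fun h => h1.not_isUnit (h.map Polynomial.C), fun a b hab => ?_⟩
  have h2 := h1.isUnit_or_isUnit (a := Polynomial.C a) (b := Polynomial.C b) (by
    rw [hab, map_mul])
  rcases h2 with h | h
  · exact Or.inl (Polynomial.isUnit_C.1 h)
  · exact Or.inr (Polynomial.isUnit_C.1 h)

theorem associated_pb {F G : MvPolynomial (Fin 2) K} (hF0 : F.degreeOf 0 = 0)
    (hG0 : G.degreeOf 0 = 0) (h : Associated (pb F) (pb G)) : Associated F G := by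
  have h1 : Associated (MvPolynomial.finSuccEquiv K 1 F) (MvPolynomial.finSuccEquiv K 1 G) := by
    rw [finSucc_eq hF0, finSucc_eq hG0]
    exact h.map Polynomial.C
  have h2 := h1.map (MvPolynomial.finSuccEquiv K 1).symm
  rwa [AlgEquiv.symm_apply_apply, AlgEquiv.symm_apply_apply] at h2

theorem degreeOf_pb (hB3 : StmB3) {F : MvPolynomial (Fin 2) K} (h0 : F.degreeOf 0 = 0)
    (hF : F ≠ 0) : (pb F).degreeOf 0 = F.degreeOf 1 := by
  obtain ⟨j, hj, h1, -⟩ := hB3 K 1 F 0 hF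
  rw [h0] at hj
  obtain rfl : j = 0 := by omega
  exact h1

end Alg

variable {K : Type} [Field K] [NumberField K]

theorem one_le_degreeOf_pb {F : MvPolynomial (Fin 2) K} (h0 : F.degreeOf 0 = 0)
    (hF : Irreducible F) : 1 ≤ (pb F).degreeOf 0 := by
  obtain ⟨i, hi⟩ := exists_deg (irreducible_pb h0 hF)
  rwa [Subsingleton.elim i 0] at hi

open Classical in
/-- the primes of the values of a polynomial in one variable -/
theorem sum_ddm_le (hUM : StmUM) (P : MvPolynomial (Fin 1) K) (hP : P ≠ 0) :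
    ∃ C : ℝ, 0 ≤ C ∧ ∀ y : K, MvPolynomial.eval (fun _ => y) P ≠ 0 →
      ∑ v ∈ ddm P (fun _ => y), Real.log (Nv v) ≤ C * (1 + hr (aff y)) := by
  obtain ⟨C1, hC1, h1⟩ := cnt1_ge (S := (∅ : Set (Pr K))) Set.finite_empty
    (fun _ : Fin 1 => P) (fun _ => hP) (∅ : Finset (Fin 1))
  obtain ⟨C2, h2⟩ := cnt1_le hUM (∅ : Set (Pr K)) (fun _ : Fin 1 => P) (fun _ => hP)
    (∅ : Finset (Fin 1))
  refine ⟨P.degreeOf 0 + (C1 + |C2|), by positivity, fun y hy => ?_⟩
  have h3 := h1 (fun _ => y) fun _ => hy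
  have h4 := h2 (fun _ => y) fun _ => hy
  have h5 : ∑ v ∈ ddm P (fun _ => y), Real.log (Nv v) ≤
      ∑ v ∈ UU (fun _ : Fin 1 => P) (∅ : Finset (Fin 1)) (fun _ => y), Real.log (Nv v) := by
    refine Finset.sum_le_sum_of_subset_of_nonneg ?_ fun v _ _ => (log_Nv_pos v).le
    intro v hv
    unfold UU
    rw [Finset.mem_biUnion]
    exact ⟨Sum.inl 0, by simp, hv⟩
  simp only [Fin.sum_univ_one, Finset.notMem_empty, if_false, add_zero] at h4
  have h6 := le_abs_self C2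
  have h7 : 0 ≤ hr (aff y) := hr_aff_nonneg y
  have h8 : 0 ≤ (C1 + |C2|) * hr (aff y) := by positivity
  have h9 : (0 : ℝ) ≤ P.degreeOf 0 := Nat.cast_nonneg _
  nlinarith

open Classical in
/-- **a component which depends on `x_1` only** -/
theorem comp_base (hRM : StmRM) (hUM : StmUM) (hZM : StmZM) (hLM : StmLM) (hOD : StmOD)
    (hB4 : StmB4) (F : MvPolynomial (Fin 2) K) (hF : Irreducible F) (h0 : F.degreeOf 0 = 0)
    {w : ℝ} (hw0 : 0 < w) (hwE : w ≤ F.degreeOf 1) (hw : F.degreeOf 1 ≤ 5 ∨ w ≤ 2)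
    {κ : ℝ} (hκ0 : 0 < κ) (hκ1 : κ ≤ 1) :
    T2 K (fun H x => MvPolynomial.eval x F ≠ 0 ∧ ∑ v ∈ ddm F x, Real.log (Nv v) <
      w * hr (aff (x 1)) - κ * H) := by
  have hPi := irreducible_pb h0 hF
  obtain ⟨P, hP⟩ : ∃ P, P = pb F := ⟨_, rfl⟩
  rw [← hP] at hPi
  have hev : ∀ x : Fin 2 → K, MvPolynomial.eval x F = MvPolynomial.eval (fun _ => x 1) P :=
    fun x => by rw [hP, eval_pb h0]
  have hdeg : ∑ i, P.degreeOf i = F.degreeOf 1 := by
    rw [Fin.sum_univ_one, hP]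
    exact degreeOf_pb Pool.Agent.N199.SU.stmB3 h0 hF.ne_zero
  obtain ⟨C0, hC0, hup⟩ := sum_ddm_le hUM P hPi.ne_zero
  -- the primes at which `x_0` is not integral
  have h1 := ovl_pd (K := K) (κ := κ / 2) (by positivity) (by linarith) hC0
    (fun y => if MvPolynomial.eval (fun _ => y) P ≠ 0 then ddm P (fun _ => y) else ∅)
  -- the condition on `x_1`
  have h2 := thin_comp hRM hUM hZM hLM hOD hB4 P hPi (w := w) (by rw [hdeg]; exact hwE)
    (by rw [hdeg]; exact hw) (κ := κ / 2) (by positivity) (by linarith)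
  obtain ⟨c, hc⟩ : ∃ c : ℝ, c = min 1 (κ / (2 * w)) := ⟨_, rfl⟩
  have hc0 : 0 < c := by rw [hc]; exact lt_min one_pos (by positivity)
  have hc1 : c ≤ 1 := by rw [hc]; exact min_le_left _ _
  have hc2 : c * (2 * w) ≤ κ := by
    have : c ≤ κ / (2 * w) := by rw [hc]; exact min_le_right _ _
    rwa [le_div_iff₀ (by positivity)] at this
  have h3 := T2.base_thin h2 hc0 hc1 (B := fun H y => MvPolynomial.eval (fun _ => y) P ≠ 0 ∧
    ∑ v ∈ ddm P (fun _ => y), Real.log (Nv v) < w * hr (aff y) - κ / 2 * H) (by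
    rintro H1 H y hH1 hH hy ⟨hy0, hy1⟩
    have e1 : 0 ≤ ∑ v ∈ ddm P (fun _ => y), Real.log (Nv v) :=
      Finset.sum_nonneg fun v _ => (log_Nv_pos v).le
    have e2 : w * hr (aff y) ≤ w * H1 := mul_le_mul_of_nonneg_left hy hw0.le
    have e3 : κ / 2 * H1 ≤ κ / 2 * H := mul_le_mul_of_nonneg_left hH (by positivity)
    refine ⟨?_, hy0, ?_⟩
    · have e4 : κ / 2 * H < w * H1 := by linarith
      have e5 : c * (2 * w) * H ≤ κ * H := mul_le_mul_of_nonneg_right hc2 (hH1.trans hH)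
      have e6 : 0 < 2 * w := by positivity
      by_contra hcon
      push Not at hcon
      have e7 := mul_lt_mul_of_pos_right hcon e6
      linarith
    · rw [sub_mul]
      linarith)
  refine (h1.or h3).mono ∅ ?_
  rintro H x hH - hx1 hx0' ⟨hx0, hx⟩
  have hP0 : MvPolynomial.eval (fun _ => x 1) P ≠ 0 := by rw [← hev]; exact hx0
  by_cases hcase : κ / 2 * H ≤ ∑ v ∈ ddm P (fun _ => x 1) ∩ pd (x 0), Real.log (Nv v)
  · left
    rw [if_pos hP0]
    refine ⟨?_, hcase⟩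
    have := hup (x 1) hP0
    exact this.trans (mul_le_mul_of_nonneg_left (by linarith) hC0)
  · right
    refine ⟨hP0, ?_⟩
    push Not at hcase
    have e1 : ddm P (fun _ => x 1) ⊆ ddm F x ∪ (ddm P (fun _ => x 1) ∩ pd (x 0)) := by
      intro v hv
      rw [Finset.mem_union, Finset.mem_inter, mem_pd]
      by_cases h : 1 < fv v (x 0)
      · exact Or.inr ⟨hv, h⟩
      · left
        rw [mem_ddm hP0] at hv
        rw [mem_ddm hx0, hev]
        refine ⟨fun i => ?_, hv.2⟩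
        fin_cases i
        · exact not_lt.1 h
        · exact hv.1 0
    have e2 : ∑ v ∈ ddm P (fun _ => x 1), Real.log (Nv v) ≤ ∑ v ∈ ddm F x, Real.log (Nv v) +
        ∑ v ∈ ddm P (fun _ => x 1) ∩ pd (x 0), Real.log (Nv v) := by
      refine (Finset.sum_le_sum_of_subset_of_nonneg e1 fun v _ _ => (log_Nv_pos v).le).trans ?_
      have e3 : ∑ v ∈ ddm F x ∪ (ddm P (fun _ => x 1) ∩ pd (x 0)), Real.log (Nv v) +
          ∑ v ∈ ddm F x ∩ (ddm P (fun _ => x 1) ∩ pd (x 0)), Real.log (Nv v) =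
          ∑ v ∈ ddm F x, Real.log (Nv v) +
            ∑ v ∈ ddm P (fun _ => x 1) ∩ pd (x 0), Real.log (Nv v) := Finset.sum_union_inter
      have e4 : 0 ≤ ∑ v ∈ ddm F x ∩ (ddm P (fun _ => x 1) ∩ pd (x 0)), Real.log (Nv v) :=
        Finset.sum_nonneg fun v _ => (log_Nv_pos v).le
      linarith
    linarith

open Classical in
/-- **two components have few common primes** -/
theorem ovl_comp (hUM : StmUM) (hOM : StmOM) (F G : MvPolynomial (Fin 2) K)
    (hF : Irreducible F) (hG : Irreducible G) (hFG : ¬ Associated F G)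
    {κ : ℝ} (hκ0 : 0 < κ) (hκ1 : κ ≤ 1) :
    T2 K (fun H x => MvPolynomial.eval x F ≠ 0 ∧ MvPolynomial.eval x G ≠ 0 ∧
      κ * H ≤ ∑ v ∈ ddm F x ∩ ddm G x, Real.log (Nv v)) := by
  -- one of them depends on `x_0`
  have hone : ∀ F G : MvPolynomial (Fin 2) K, Irreducible F → Irreducible G →
      ¬ Associated F G → 1 ≤ F.degreeOf 0 →
      T2 K (fun H x => MvPolynomial.eval x F ≠ 0 ∧ MvPolynomial.eval x G ≠ 0 ∧
        κ * H ≤ ∑ v ∈ ddm F x ∩ ddm G x, Real.log (Nv v)) := by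
    intro F G hF hG hFG hFd
    obtain ⟨n, C0, hn, hC0, hnC⟩ := hOM K 1 F G hF hG hFG hFd
    obtain ⟨Z, hZ⟩ := zeros1 n hn
    obtain ⟨Bad, hBad⟩ : ∃ Bad : K → Finset (Pr K), Bad = fun y =>
      if h : MvPolynomial.eval (fun _ => y) n ≠ 0 then (hnC (fun _ => y) h).choose else ∅ :=
      ⟨_, rfl⟩
    refine (ovl_fib hUM F hF hFd hκ0 hκ1 hC0 Bad).mono Z ?_
    rintro H x hH hxZ hx1 hx0' ⟨hxF, hxG, hx⟩
    have hxn := hZ (x 1) hxZ
    have hBx : Bad (x 1) = (hnC (fun _ => x 1) hxn).choose := by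
      rw [hBad]
      exact dif_pos hxn
    have hsp := (hnC (fun _ => x 1) hxn).choose_spec
    rw [← hBx] at hsp
    obtain ⟨hs1, hs2⟩ := hsp
    refine ⟨hxF, ?_, ?_⟩
    · refine hs1.trans ?_
      rw [Fin.sum_univ_one]
      exact mul_le_mul_of_nonneg_left (by linarith) hC0
    · refine hx.trans (Finset.sum_le_sum_of_subset_of_nonneg ?_ fun v _ _ =>
        (log_Nv_pos v).le)
      intro v hv
      obtain ⟨hv1, hv2⟩ := Finset.mem_inter.1 hv
      refine Finset.mem_inter.2 ⟨?_, hv1⟩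
      by_contra hcon
      rw [mem_ddm hxF] at hv1
      rw [mem_ddm hxG] at hv2
      have h4 := (hs2 v hcon).2 (x 0) (hv1.1 0)
      rw [cons_vec, vec2] at h4
      exact h4 ⟨hv1.2, hv2.2⟩
  rcases Nat.eq_zero_or_pos (F.degreeOf 0) with hF0 | hF0
  · rcases Nat.eq_zero_or_pos (G.degreeOf 0) with hG0 | hG0
    · -- both depend on `x_1` only
      obtain ⟨n, C0, hn, hC0, hnC⟩ := hOM K 0 (pb F) (pb G) (irreducible_pb hF0 hF)
        (irreducible_pb hG0 hG) (fun h => hFG (associated_pb hF0 hG0 h))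
        (one_le_degreeOf_pb hF0 hF)
      have hn0 : MvPolynomial.eval (Fin.elim0 : Fin 0 → K) n ≠ 0 := by
        intro h
        rw [MvPolynomial.eq_C_of_isEmpty n, MvPolynomial.eval_C] at h
        exact hn (by rw [MvPolynomial.eq_C_of_isEmpty n, h, map_zero])
      obtain ⟨Bad, hB1, hB2⟩ := hnC Fin.elim0 hn0
      rw [Finset.univ_eq_empty, Finset.sum_empty, add_zero, mul_one] at hB1
      refine (t2_bdd (C0 / κ)).mono ∅ ?_
      rintro H x hH - - - ⟨hxF, hxG, hx⟩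
      rw [le_div_iff₀ hκ0, mul_comm]
      refine hx.trans (le_trans (Finset.sum_le_sum_of_subset_of_nonneg ?_ fun v _ _ =>
        (log_Nv_pos v).le) hB1)
      intro v hv
      obtain ⟨hv1, hv2⟩ := Finset.mem_inter.1 hv
      by_contra hcon
      rw [mem_ddm hxF] at hv1
      rw [mem_ddm hxG] at hv2
      have h4 := (hB2 v hcon).2 (x 1) (hv1.1 1)
      have e1 : (Fin.cons (x 1) (Fin.elim0 : Fin 0 → K) : Fin 1 → K) = fun _ => x 1 := by
        funext i
        fin_cases i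
        rfl
      rw [e1, ← eval_pb hF0, ← eval_pb hG0] at h4
      exact h4 ⟨hv1.2, hv2.2⟩
    · refine (hone G F hG hF (fun h => hFG h.symm) hG0).mono ∅ ?_
      rintro H x - - - - ⟨h1, h2, h3⟩
      exact ⟨h2, h1, by rwa [Finset.inter_comm]⟩
  · exact hone F G hF hG hFG hF0

/-- a component at infinity -/
theorem comp_inf0 (hRM : StmRM) (hUM : StmUM) (hZM : StmZM) (hLM : StmLM) (hOD : StmOD)
    (hB4 : StmB4) {κ : ℝ} (hκ0 : 0 < κ) (hκ1 : κ ≤ 1) :
    T2 K (fun H x => ∑ v ∈ pd (x 0), Real.log (Nv v) < hr (aff (x 0)) - κ * H) := by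
  have h1 := thin_inf (K := K) hRM hUM hZM hLM hOD hB4 (m := 1) 0 hκ0 hκ1
  refine (T2.top h1).mono ∅ ?_
  intro H x _ _ _ hx0 hx
  rw [sub_mul]
  linarith

/-- a component at infinity -/
theorem comp_inf1 (hRM : StmRM) (hUM : StmUM) (hZM : StmZM) (hLM : StmLM) (hOD : StmOD)
    (hB4 : StmB4) {κ : ℝ} (hκ0 : 0 < κ) (hκ1 : κ ≤ 1) :
    T2 K (fun H x => ∑ v ∈ pd (x 1), Real.log (Nv v) < hr (aff (x 1)) - κ * H) := by
  have h1 := thin_inf (K := K) hRM hUM hZM hLM hOD hB4 (m := 1) 0 hκ0 hκ1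
  refine T2.base_thin h1 hκ0 hκ1 (B := fun H y => ∑ v ∈ pd y, Real.log (Nv v) <
    hr (aff y) - κ * H) ?_
  intro H1 H y hH1 hH hy hy1
  have e1 : 0 ≤ ∑ v ∈ pd y, Real.log (Nv v) := Finset.sum_nonneg fun v _ => (log_Nv_pos v).le
  have e3 : κ * H1 ≤ κ * H := mul_le_mul_of_nonneg_left hH hκ0.le
  refine ⟨by linarith, ?_⟩
  rw [sub_mul]
  linarith

end Pool.Agent.N445.UB
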