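import Mathlib
import Pool.Agent.N445.UB.B5

/-!
# One divisor
-/

set_option autoImplicit false
set_option linter.unusedSectionVars false

namespace Pool.Agent.N445.UB

open NumberField IsDedekindDomain Finset Pool.Agent.H691R3
open Pool.Agent.TH876.Loc hiding mx mx_nonneg
open Pool.Agent.N753.LS Pool.Agent.N753.SF Pool.Agent.N753.SU Polynomial

variable {K : Type} [Field K] [NumberField K]

/-- the lower bound for the truncated counting function of a component of bidegree `(a, b)` at a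
point the coordinates of which have the heights `s` and `t` -/
noncomputable def tc (a b : ℕ) (s t : ℝ) : ℝ :=
  if a + b ≤ 5 then a * s + b * t
  else min (a * s + b * t) (2 * max (if a = 0 then 0 else s) (if b = 0 then 0 else t))

theorem tc_le (a b : ℕ) (s t : ℝ) : tc a b s t ≤ a * s + b * t := by
  unfold tc
  split_ifs
  · exact le_rfl
  all_goals exact min_le_left _ _

theorem tc_le_two {a b : ℕ} (h : ¬ a + b ≤ 5) {s t H : ℝ} (hH : 0 ≤ H) (hs : s ≤ H) (ht : t ≤ H) :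
    tc a b s t ≤ 2 * H := by
  unfold tc
  rw [if_neg h]
  refine (min_le_right _ _).trans (mul_le_mul_of_nonneg_left (max_le ?_ ?_) zero_le_two)
  · split_ifs
    · exact hH
    · exact hs
  · split_ifs
    · exact hH
    · exact ht

theorem tc_comm (a b : ℕ) (s t : ℝ) : tc b a t s = tc a b s t := by
  unfold tc
  rw [add_comm b a, add_comm (b * t) (a * s), max_comm]

/-- all the tools -/
structure Tools : Prop where
  rm : StmRM
  um : StmUM
  zm : StmZM
  lm : StmLM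
  od : StmOD
  om : StmOM
  b4 : StmB4

open Classical in
/-- **one component** -/
theorem comp_t2 (hT : Tools) (F : MvPolynomial (Fin 2) K) (hF : Irreducible F)
    {κ : ℝ} (hκ0 : 0 < κ) (hκ1 : κ ≤ 1) :
    T2 K (fun H x => MvPolynomial.eval x F ≠ 0 ∧ ∑ v ∈ ddm F x, Real.log (Nv v) <
      tc (F.degreeOf 0) (F.degreeOf 1) (hr (aff (x 0))) (hr (aff (x 1))) - κ * H) := by
  have hsum : ∑ i, F.degreeOf i = F.degreeOf 0 + F.degreeOf 1 := Fin.sum_univ_two _
  rcases Nat.eq_zero_or_pos (F.degreeOf 0) with h0 | h0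
  · -- it does not depend on `x_0`
    have h1 : 1 ≤ F.degreeOf 1 := by
      obtain ⟨i, hi⟩ := exists_deg hF
      fin_cases i
      · simp only [Fin.zero_eta] at hi
        omega
      · exact hi
    have h1' : (1 : ℝ) ≤ F.degreeOf 1 := by exact_mod_cast h1
    by_cases h5 : F.degreeOf 1 ≤ 5
    · refine (comp_base hT.rm hT.um hT.zm hT.lm hT.od hT.b4 F hF h0 (w := F.degreeOf 1)
        (by linarith) le_rfl (Or.inl h5) hκ0 hκ1).mono ∅ ?_
      rintro H x hH - - - ⟨hx0, hx⟩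
      refine ⟨hx0, hx.trans_le ?_⟩
      have := tc_le (F.degreeOf 0) (F.degreeOf 1) (hr (aff (x 0))) (hr (aff (x 1)))
      rw [h0] at this ⊢
      push_cast at this
      linarith
    · refine (comp_base hT.rm hT.um hT.zm hT.lm hT.od hT.b4 F hF h0 (w := 2)
        (by norm_num) (by exact_mod_cast (by omega : 2 ≤ F.degreeOf 1)) (Or.inr le_rfl)
        hκ0 hκ1).mono ∅ ?_
      rintro H x hH - - - ⟨hx0, hx⟩
      refine ⟨hx0, hx.trans_le ?_⟩
      rw [h0]
      unfold tc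
      rw [if_neg (by omega), if_pos rfl, if_neg (by omega), max_eq_right (hr_aff_nonneg _)]
      have := min_le_right (((0 : ℕ) : ℝ) * hr (aff (x 0)) + F.degreeOf 1 * hr (aff (x 1)))
        (2 * hr (aff (x 1)))
      linarith
  · by_cases h5 : F.degreeOf 0 + F.degreeOf 1 ≤ 5
    · refine (comp_fib hT.rm hT.um hT.od F hF h0 ((F.degreeOf 0 : ℝ) + F.degreeOf 1)
        (Or.inl (by rw [hsum]; exact h5)) hκ0 hκ1).mono ∅ ?_
      rintro H x hH - hx1 hx0' ⟨hx0, hx⟩
      have h2 := tc_le (F.degreeOf 0) (F.degreeOf 1) (hr (aff (x 0))) (hr (aff (x 1)))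
      refine ⟨hx0, by linarith, ?_⟩
      have h3 : (F.degreeOf 0 : ℝ) * hr (aff (x 0)) ≤ F.degreeOf 0 * H :=
        mul_le_mul_of_nonneg_left hx0' (Nat.cast_nonneg _)
      have h4 : (F.degreeOf 1 : ℝ) * hr (aff (x 1)) ≤ F.degreeOf 1 * H :=
        mul_le_mul_of_nonneg_left hx1 (Nat.cast_nonneg _)
      rw [sub_mul, add_mul]
      linarith
    · refine (comp_fib hT.rm hT.um hT.od F hF h0 2 (Or.inr le_rfl) hκ0 hκ1).mono ∅ ?_
      rintro H x hH - hx1 hx0' ⟨hx0, hx⟩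
      have h2 := tc_le (F.degreeOf 0) (F.degreeOf 1) (hr (aff (x 0))) (hr (aff (x 1)))
      have h3 := tc_le_two h5 hH hx0' hx1
      refine ⟨hx0, by linarith, ?_⟩
      rw [sub_mul]
      linarith

/-- the lower bounds for the components -/
noncomputable def tg {r : ℕ} (F : Fin r → MvPolynomial (Fin 2) K) (x : Fin 2 → K) :
    Fin r ⊕ Fin 2 → ℝ :=
  Sum.elim (fun j => tc ((F j).degreeOf 0) ((F j).degreeOf 1) (hr (aff (x 0))) (hr (aff (x 1))))
    (fun i => hr (aff (x i)))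

/-- the lower bound for the divisor -/
noncomputable def TT {r : ℕ} (F : Fin r → MvPolynomial (Fin 2) K) (I : Finset (Fin 2))
    (x : Fin 2 → K) : ℝ := ∑ k ∈ Finset.univ.disjSum I, tg F x k

open Classical in
/-- **one divisor** -/
theorem one_div (hT : Tools) {r : ℕ} (F : Fin r → MvPolynomial (Fin 2) K) (I : Finset (Fin 2))
    (hF : ∀ j, Irreducible (F j)) (hFF : ∀ j k, j ≠ k → ¬ Associated (F j) (F k))
    {κ : ℝ} (hκ0 : 0 < κ) (hκ1 : κ ≤ 1) :
    T2 K (fun H x => (∀ j, MvPolynomial.eval x (F j) ≠ 0) ∧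
      ∑ v ∈ UU F I x, Real.log (Nv v) < TT F I x - κ * H) := by
  obtain ⟨s, hs⟩ : ∃ s : Finset (Fin r ⊕ Fin 2), s = Finset.univ.disjSum I := ⟨_, rfl⟩
  obtain ⟨n, hn⟩ : ∃ n : ℝ, n = s.card := ⟨_, rfl⟩
  have hn0 : 0 ≤ n := by rw [hn]; exact Nat.cast_nonneg _
  obtain ⟨κ', hκ'⟩ : ∃ κ' : ℝ, κ' = κ / (n + 1) ^ 2 := ⟨_, rfl⟩
  have hκ'0 : 0 < κ' := by rw [hκ']; positivity
  have hκ'n : κ' * (n + 1) ^ 2 = κ := by rw [hκ']; field_simp
  have hκ'1 : κ' ≤ 1 := by
    have h1 : 1 ≤ (n + 1) ^ 2 := by nlinarith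
    nlinarith
  have h1 : T2 K (fun H x => ∃ k ∈ s, (∀ j, MvPolynomial.eval x (F j) ≠ 0) ∧
      ∑ v ∈ cp F x k, Real.log (Nv v) < tg F x k - κ' * H) := by
    refine T2.ex s ?_
    rintro (j | i) -
    · refine (comp_t2 hT (F j) (hF j) hκ'0 hκ'1).mono ∅ ?_
      rintro H x - - - - ⟨hx0, hx⟩
      exact ⟨hx0 j, hx⟩
    · fin_cases i
      · refine (comp_inf0 hT.rm hT.um hT.zm hT.lm hT.od hT.b4 hκ'0 hκ'1).mono ∅ ?_
        rintro H x - - - - ⟨hx0, hx⟩
        exact hx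
      · refine (comp_inf1 hT.rm hT.um hT.zm hT.lm hT.od hT.b4 hκ'0 hκ'1).mono ∅ ?_
        rintro H x - - - - ⟨hx0, hx⟩
        exact hx
  have h2 : T2 K (fun H x => ∃ k ∈ s, ∃ l ∈ s.erase k, (∀ j, MvPolynomial.eval x (F j) ≠ 0) ∧
      0 < H ∧ κ' * H ≤ ∑ v ∈ cp F x k ∩ cp F x l, Real.log (Nv v)) := by
    refine T2.ex s fun k hk => T2.ex (s.erase k) fun l hl => ?_
    have hkl : k ≠ l := (Finset.ne_of_mem_erase hl).symm
    rcases k with j | i
    · rcases l with k | i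
      · refine (ovl_comp hT.um hT.om (F j) (F k) (hF j) (hF k)
          (hFF j k fun h => hkl (by rw [h])) hκ'0 hκ'1).mono ∅ ?_
        rintro H x - - - - ⟨hx0, -, hx⟩
        exact ⟨hx0 j, hx0 k, hx⟩
      · refine t2_false ?_
        rintro H x hH ⟨hx0, hH0, hx⟩
        have h3 : ∑ v ∈ cp F x (Sum.inl j) ∩ cp F x (Sum.inr i), Real.log (Nv v) = 0 := by
          show ∑ v ∈ ddm (F j) x ∩ pd (x i), Real.log (Nv v) = 0
          rw [ddm_pd_disj (hx0 j), Finset.sum_empty]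
        rw [h3] at hx
        have := mul_pos hκ'0 hH0
        linarith
    · rcases l with k | i'
      · refine t2_false ?_
        rintro H x hH ⟨hx0, hH0, hx⟩
        have h3 : ∑ v ∈ cp F x (Sum.inr i) ∩ cp F x (Sum.inl k), Real.log (Nv v) = 0 := by
          show ∑ v ∈ pd (x i) ∩ ddm (F k) x, Real.log (Nv v) = 0
          rw [Finset.inter_comm, ddm_pd_disj (hx0 k), Finset.sum_empty]
        rw [h3] at hx
        have := mul_pos hκ'0 hH0
        linarith
      · refine (ovl_inf (K := K) hκ'0 hκ'1).mono ∅ ?_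
        rintro H x - - - - ⟨hx0, -, hx⟩
        refine hx.trans (le_of_eq ?_)
        have hii : i ≠ i' := fun h => hkl (by rw [h])
        have hcase : (i = 0 ∧ i' = 1) ∨ (i = 1 ∧ i' = 0) := by
          fin_cases i <;> fin_cases i' <;> simp_all
        rcases hcase with ⟨rfl, rfl⟩ | ⟨rfl, rfl⟩
        · show ∑ v ∈ pd (x 0) ∩ pd (x 1), Real.log (Nv v) = _
          rw [Finset.inter_comm]
        · rfl
  refine ((h1.or h2).or (t2_bdd 0)).mono ∅ ?_
  rintro H x hH - hx1 hx0' ⟨hx0, hx⟩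
  rcases hH.eq_or_lt with hH0 | hH0
  · exact Or.inr hH0.ge
  left
  by_contra hcon
  rw [not_or] at hcon
  obtain ⟨hc1, hc2⟩ := hcon
  push Not at hc1 hc2
  have hb := bonf s (cp F x) (fun v => Real.log (Nv v)) (fun v => (log_Nv_pos v).le)
  have e1 : ∑ k ∈ s, (tg F x k - κ' * H) ≤ ∑ k ∈ s, ∑ v ∈ cp F x k, Real.log (Nv v) :=
    Finset.sum_le_sum fun k hk => hc1 k hk hx0
  have e2 : ∑ k ∈ s, ∑ l ∈ s, (if k = l then (0 : ℝ) else
      ∑ v ∈ cp F x k ∩ cp F x l, Real.log (Nv v)) ≤ ∑ k ∈ s, ∑ l ∈ s, κ' * H := by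
    refine Finset.sum_le_sum fun k hk => Finset.sum_le_sum fun l hl => ?_
    split_ifs with h
    · positivity
    · exact (hc2 k hk l (Finset.mem_erase.2 ⟨fun h' => h h'.symm, hl⟩) hx0 hH0).le
  rw [Finset.sum_sub_distrib, Finset.sum_const, nsmul_eq_mul, ← hn] at e1
  simp only [Finset.sum_const, nsmul_eq_mul, ← hn] at e2
  have e3 : UU F I x = s.biUnion (cp F x) := by rw [hs]; rfl
  have e4 : TT F I x = ∑ k ∈ s, tg F x k := by rw [hs]; rfl
  rw [e3, e4] at hx
  have e5 : κ * H = κ' * H + 2 * (n * (κ' * H)) + n * (n * (κ' * H)) := by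
    rw [← hκ'n]; ring
  have e6 : 0 ≤ n * (κ' * H) := by positivity
  have e7 : 0 < κ' * H := by positivity
  linarith

end Pool.Agent.N445.UB
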