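import Mathlib
import Pool.Agent.N445.UB.B6

/-!
# One divisor, all boxes
-/

set_option autoImplicit false
set_option linter.unusedSectionVars false

namespace Pool.Agent.N445.UB

open NumberField IsDedekindDomain Finset Pool.Agent.H691R3
open Pool.Agent.TH876.Loc hiding mx mx_nonneg
open Pool.Agent.N753.LS Pool.Agent.N753.SF Pool.Agent.N753.SU Polynomial

variable {K : Type} [Field K] [NumberField K]

/-- a set with a power saving in all boxes -/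
def Box (E : Set (Fin 2 → K)) : Prop :=
  ∃ ν C : ℝ, 0 < ν ∧ ν ≤ 1 ∧ 0 < C ∧ ∀ H0 H1 : ℝ, 0 ≤ H0 → 0 ≤ H1 → ∀ S : Finset (Fin 2 → K),
    (∀ x ∈ S, x ∈ E ∧ hr (aff (x 0)) ≤ H0 ∧ hr (aff (x 1)) ≤ H1) →
      (S.card : ℝ) ≤ C * Real.exp (2 * H0 + 2 * H1 - ν * max H0 H1)

theorem Box.mono {A B : Set (Fin 2 → K)} (hB : Box B) (h : ∀ x, x ∈ A → x ∈ B) : Box A := by
  obtain ⟨ν, C, hν, hν1, hC, hB⟩ := hB
  exact ⟨ν, C, hν, hν1, hC, fun H0 H1 h0 h1 S hS => hB H0 H1 h0 h1 S fun x hx =>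
    ⟨h x (hS x hx).1, (hS x hx).2⟩⟩

theorem Box.union {A B : Set (Fin 2 → K)} (hA : Box A) (hB : Box B) : Box (A ∪ B) := by
  classical
  obtain ⟨ν1, C1, hν1, hν11, hC1, hA⟩ := hA
  obtain ⟨ν2, C2, hν2, hν21, hC2, hB⟩ := hB
  refine ⟨min ν1 ν2, C1 + C2, lt_min hν1 hν2, (min_le_left _ _).trans hν11, by positivity, ?_⟩
  intro H0 H1 hH0 hH1 S hS
  have hm : 0 ≤ max H0 H1 := hH0.trans (le_max_left _ _)
  have h1 := hA H0 H1 hH0 hH1 (S.filter fun x => x ∈ A) fun x hx =>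
    ⟨(Finset.mem_filter.1 hx).2, (hS x (Finset.mem_filter.1 hx).1).2⟩
  have h2 := hB H0 H1 hH0 hH1 (S.filter fun x => ¬ x ∈ A) fun x hx =>
    ⟨(hS x (Finset.mem_filter.1 hx).1).1.resolve_left (Finset.mem_filter.1 hx).2,
      (hS x (Finset.mem_filter.1 hx).1).2⟩
  have h3 : (S.card : ℝ) = (S.filter fun x => x ∈ A).card + (S.filter fun x => ¬ x ∈ A).card := by
    exact_mod_cast (Finset.card_filter_add_card_filter_not (s := S) (p := fun x => x ∈ A)).symm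
  have h4 : Real.exp (2 * H0 + 2 * H1 - ν1 * max H0 H1) ≤
      Real.exp (2 * H0 + 2 * H1 - min ν1 ν2 * max H0 H1) :=
    Real.exp_le_exp.2 (sub_le_sub_left (mul_le_mul_of_nonneg_right (min_le_left _ _) hm) _)
  have h5 : Real.exp (2 * H0 + 2 * H1 - ν2 * max H0 H1) ≤
      Real.exp (2 * H0 + 2 * H1 - min ν1 ν2 * max H0 H1) :=
    Real.exp_le_exp.2 (sub_le_sub_left (mul_le_mul_of_nonneg_right (min_le_right _ _) hm) _)
  have h6 := mul_le_mul_of_nonneg_left h4 hC1.le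
  have h7 := mul_le_mul_of_nonneg_left h5 hC2.le
  rw [h3, add_mul]
  linarith

/-- exchange of the coordinates -/
def sw (x : Fin 2 → K) : Fin 2 → K := x ∘ Equiv.swap 0 1

theorem sw_zero (x : Fin 2 → K) : sw x 0 = x 1 := by simp [sw]

theorem sw_one (x : Fin 2 → K) : sw x 1 = x 0 := by simp [sw]

theorem sw_sw (x : Fin 2 → K) : sw (sw x) = x := by
  funext i
  simp [sw]

theorem Box.swap {A : Set (Fin 2 → K)} (hA : Box A) : Box {x | sw x ∈ A} := by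
  classical
  obtain ⟨ν, C, hν, hν1, hC, hA⟩ := hA
  refine ⟨ν, C, hν, hν1, hC, fun H0 H1 h0 h1 S hS => ?_⟩
  have hinj : Function.Injective (sw : (Fin 2 → K) → (Fin 2 → K)) :=
    Function.LeftInverse.injective sw_sw
  rw [← Finset.card_image_of_injective S hinj, max_comm]
  refine (hA H1 H0 h1 h0 _ fun y hy => ?_).trans (le_of_eq ?_)
  · obtain ⟨x, hx, rfl⟩ := Finset.mem_image.1 hy
    obtain ⟨e1, e2, e3⟩ := hS x hx
    rw [sw_zero, sw_one]
    exact ⟨e1, e3, e2⟩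
  · congr 2
    ring

theorem half_box {A : ℝ → (Fin 2 → K) → Prop} (hA : T2 K A) :
    ∃ Z : Finset K, Box {x : Fin 2 → K | x 1 ∉ Z ∧ hr (aff (x 1)) ≤ hr (aff (x 0)) ∧
      A (⌊hr (aff (x 0))⌋₊ + 1) x} := by
  classical
  obtain ⟨Z, ν, C, hν, hν1, hC, hA⟩ := hA
  refine ⟨Z, ν / 2, C * (2 / ν * Real.exp 2), by positivity, by linarith, by positivity, ?_⟩
  -- first the case H1 ≤ H0
  have key : ∀ H0 H1 : ℝ, 0 ≤ H1 → H1 ≤ H0 → ∀ S : Finset (Fin 2 → K),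
      (∀ x ∈ S, (x 1 ∉ Z ∧ hr (aff (x 1)) ≤ hr (aff (x 0)) ∧
        A (⌊hr (aff (x 0))⌋₊ + 1) x) ∧ hr (aff (x 0)) ≤ H0 ∧ hr (aff (x 1)) ≤ H1) →
      (S.card : ℝ) ≤ C * (2 / ν * Real.exp 2) * Real.exp (2 * H1 + (2 - ν / 2) * H0) := by
    intro H0 H1 hH1 hH10 S hS
    have hH0 : 0 ≤ H0 := hH1.trans hH10
    have hmaps : ∀ x ∈ S, ⌊hr (aff (x 0))⌋₊ ∈ Finset.range (⌊H0⌋₊ + 1) := by
      intro x hx
      rw [Finset.mem_range, Nat.lt_succ_iff]
      exact Nat.floor_le_floor (hS x hx).2.1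
    have hsum : (S.card : ℝ) = ∑ i ∈ Finset.range (⌊H0⌋₊ + 1),
        ((S.filter fun x => ⌊hr (aff (x 0))⌋₊ = i).card : ℝ) := by
      have := Finset.card_eq_sum_card_fiberwise hmaps
      exact_mod_cast this
    have hf : ∀ i ∈ Finset.range (⌊H0⌋₊ + 1),
        ((S.filter fun x => ⌊hr (aff (x 0))⌋₊ = i).card : ℝ) ≤
        C * (Real.exp 2 * Real.exp (2 * H1 + (2 - ν) * H0)) := by
      intro i hi
      rw [Finset.mem_range, Nat.lt_succ_iff] at hi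
      have hi' : (i : ℝ) ≤ H0 := (Nat.cast_le.2 hi).trans (Nat.floor_le hH0)
      refine (hA (min H1 (i + 1)) (i + 1) (le_min hH1 (by positivity)) (min_le_right _ _) _
        ?_).trans ?_
      · intro x hx
        obtain ⟨hx1, hx2⟩ := Finset.mem_filter.1 hx
        obtain ⟨⟨e1, e2, e3⟩, e4, e5⟩ := hS x hx1
        have e6 : hr (aff (x 0)) ≤ i + 1 := by
          rw [← hx2]
          exact (Nat.lt_floor_add_one _).le
        refine ⟨e1, le_min e5 (e2.trans e6), e6, ?_⟩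
        rw [← hx2]
        exact e3
      · refine mul_le_mul_of_nonneg_left ?_ hC.le
        rw [← Real.exp_add]
        refine Real.exp_le_exp.2 ?_
        have h1 := min_le_left H1 ((i : ℝ) + 1)
        have h2 : (2 - ν) * ((i : ℝ) + 1) ≤ (2 - ν) * (H0 + 1) :=
          mul_le_mul_of_nonneg_left (by linarith) (by linarith)
        linarith
    rw [hsum]
    refine (Finset.sum_le_sum hf).trans ?_
    rw [Finset.sum_const, nsmul_eq_mul, Finset.card_range]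
    have h3 : ((⌊H0⌋₊ + 1 : ℕ) : ℝ) ≤ 2 / ν * Real.exp (ν / 2 * H0) := by
      have e1 : ((⌊H0⌋₊ : ℕ) : ℝ) ≤ H0 := Nat.floor_le hH0
      have e2 := Real.add_one_le_exp (ν / 2 * H0)
      have e3 : 0 < 2 / ν := by positivity
      have e4 := mul_le_mul_of_nonneg_left e2 e3.le
      have e5 : 2 / ν * (ν / 2 * H0 + 1) = H0 + 2 / ν := by field_simp
      have e6 : 1 ≤ 2 / ν := by rw [le_div_iff₀ hν]; linarith
      push_cast
      linarith
    refine (mul_le_mul_of_nonneg_right h3 (by positivity)).trans (le_of_eq ?_)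
    have e1 : Real.exp (2 * H1 + (2 - ν / 2) * H0) =
        Real.exp (ν / 2 * H0) * Real.exp (2 * H1 + (2 - ν) * H0) := by
      rw [← Real.exp_add]
      congr 1
      ring
    rw [e1]
    ring
  intro H0 H1 hH0 hH1 S hS
  rcases le_total H1 H0 with h | h
  · rw [max_eq_left h]
    refine (key H0 H1 hH1 h S hS).trans (le_of_eq ?_)
    congr 2
    ring
  · rw [max_eq_right h]
    refine (key H0 H0 hH0 le_rfl S fun x hx => ?_).trans ?_
    · obtain ⟨e1, e2, e3⟩ := hS x hx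
      exact ⟨e1, e2, e1.2.1.trans e2⟩
    · refine mul_le_mul_of_nonneg_left (Real.exp_le_exp.2 ?_) (by positivity)
      have := mul_le_mul_of_nonneg_left h (show 0 ≤ 2 - ν / 2 by linarith)
      linarith

/-- the exceptional points of a divisor -/
def Ex2 {r : ℕ} (F : Fin r → MvPolynomial (Fin 2) K) (I : Finset (Fin 2)) (κ : ℝ) :
    Set (Fin 2 → K) :=
  {x | (∀ j, MvPolynomial.eval x (F j) ≠ 0) ∧
    ∑ v ∈ UU F I x, Real.log (Nv v) < TT F I x - κ * htm x}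

theorem half_exc (hT : Tools) {r : ℕ} (F : Fin r → MvPolynomial (Fin 2) K) (I : Finset (Fin 2))
    (hF : ∀ j, Irreducible (F j)) (hFF : ∀ j k, j ≠ k → ¬ Associated (F j) (F k))
    {κ : ℝ} (hκ0 : 0 < κ) (hκ1 : κ ≤ 1) :
    ∃ Z : Finset K, Box {x : Fin 2 → K | x 1 ∉ Z ∧ hr (aff (x 1)) ≤ hr (aff (x 0)) ∧
      x ∈ Ex2 F I κ} := by
  obtain ⟨Z, hZ⟩ := half_box ((one_div hT F I hF hFF (κ := κ / 2) (by positivity)
    (by linarith)).or (t2_bdd 1))
  refine ⟨Z, hZ.mono ?_⟩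
  rintro x ⟨h1, h2, h3, h4⟩
  refine ⟨h1, h2, ?_⟩
  obtain ⟨i, hi⟩ : ∃ i : ℕ, i = ⌊hr (aff (x 0))⌋₊ := ⟨_, rfl⟩
  rw [← hi]
  rcases Nat.eq_zero_or_pos i with h0 | h0
  · right
    rw [h0]
    norm_num
  · left
    refine ⟨h3, h4.trans_le ?_⟩
    have h5 : (i : ℝ) ≤ hr (aff (x 0)) := by
      rw [hi]
      exact Nat.floor_le (hr_aff_nonneg _)
    have h6 : (1 : ℝ) ≤ i := by exact_mod_cast h0
    have h7 : hr (aff (x 0)) ≤ htm x := by
      rw [hr_aff]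
      exact le_htm x 0
    have h8 := mul_le_mul_of_nonneg_left (show ((i : ℝ) + 1) / 2 ≤ htm x by linarith) hκ0.le
    linarith

theorem eval_sw (hB4 : StmB4) (F : MvPolynomial (Fin 2) K) (x : Fin 2 → K) :
    MvPolynomial.eval (sw x) (MvPolynomial.rename (Equiv.swap 0 1) F) =
      MvPolynomial.eval x F := eval_swap hB4 F 1 x

theorem ddm_sw (hB4 : StmB4) {F : MvPolynomial (Fin 2) K} {x : Fin 2 → K}
    (hx : MvPolynomial.eval x F ≠ 0) :
    ddm (MvPolynomial.rename (Equiv.swap 0 1) F) (sw x) = ddm F x := ddm_swap hB4 1 hx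

theorem deg_sw0 (hB4 : StmB4) (F : MvPolynomial (Fin 2) K) :
    (MvPolynomial.rename (Equiv.swap 0 1) F).degreeOf 0 = F.degreeOf 1 := degreeOf_swap hB4 F 1

theorem deg_sw1 (hB4 : StmB4) (F : MvPolynomial (Fin 2) K) :
    (MvPolynomial.rename (Equiv.swap 0 1) F).degreeOf 1 = F.degreeOf 0 := by
  have h := (hB4 K 1 F (Equiv.swap 0 1)).2.2.1 0
  rwa [Equiv.swap_apply_left] at h

theorem htm_sw (x : Fin 2 → K) : htm (sw x) = htm x := by
  refine le_antisymm (htm_le two_pos fun i => ?_) (htm_le two_pos fun i => ?_)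
  · exact le_htm x _
  · have h := le_htm (sw x) (Equiv.swap 0 1 i)
    have e : sw x (Equiv.swap 0 1 i) = x i := by simp [sw]
    rwa [e] at h

theorem TT_eq {r : ℕ} (F : Fin r → MvPolynomial (Fin 2) K) (I : Finset (Fin 2))
    (x : Fin 2 → K) : TT F I x = ∑ j, tc ((F j).degreeOf 0) ((F j).degreeOf 1) (hr (aff (x 0)))
      (hr (aff (x 1))) + ∑ i ∈ I, hr (aff (x i)) := by
  unfold TT tg
  rw [Finset.sum_disjSum]
  rfl

theorem TT_sw (hB4 : StmB4) {r : ℕ} (F : Fin r → MvPolynomial (Fin 2) K) (I : Finset (Fin 2))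
    (x : Fin 2 → K) : TT (fun j => MvPolynomial.rename (Equiv.swap 0 1) (F j))
      (I.map (Equiv.swap 0 1).toEmbedding) (sw x) = TT F I x := by
  rw [TT_eq, TT_eq, sw_zero, sw_one]
  congr 1
  · refine Finset.sum_congr rfl fun j _ => ?_
    rw [deg_sw0 hB4, deg_sw1 hB4, tc_comm]
  · rw [Finset.sum_map]
    refine Finset.sum_congr rfl fun i _ => ?_
    simp [sw]

theorem UU_sw (hB4 : StmB4) {r : ℕ} (F : Fin r → MvPolynomial (Fin 2) K) (I : Finset (Fin 2))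
    {x : Fin 2 → K} (hx : ∀ j, MvPolynomial.eval x (F j) ≠ 0) :
    UU (fun j => MvPolynomial.rename (Equiv.swap 0 1) (F j))
      (I.map (Equiv.swap 0 1).toEmbedding) (sw x) = UU F I x := by
  classical
  have hsx : ∀ i, sw x (Equiv.swap 0 1 i) = x i := fun i => by simp [sw]
  ext v
  unfold UU
  simp only [Finset.mem_biUnion, Finset.mem_disjSum, Finset.mem_univ, true_and]
  constructor
  · rintro ⟨k, (⟨j, rfl⟩ | ⟨i, hi, rfl⟩), hv⟩
    · refine ⟨Sum.inl j, Or.inl ⟨j, rfl⟩, ?_⟩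
      change v ∈ ddm (F j) x
      rw [← ddm_sw hB4 (hx j)]
      exact hv
    · obtain ⟨i', hi', rfl⟩ := Finset.mem_map.1 hi
      refine ⟨Sum.inr i', Or.inr ⟨i', hi', rfl⟩, ?_⟩
      change v ∈ pd (x i')
      rw [← hsx i']
      exact hv
  · rintro ⟨k, (⟨j, rfl⟩ | ⟨i, hi, rfl⟩), hv⟩
    · refine ⟨Sum.inl j, Or.inl ⟨j, rfl⟩, ?_⟩
      change v ∈ ddm (MvPolynomial.rename (Equiv.swap 0 1) (F j)) (sw x)
      rw [ddm_sw hB4 (hx j)]
      exact hv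
    · refine ⟨Sum.inr (Equiv.swap 0 1 i), Or.inr ⟨Equiv.swap 0 1 i,
        Finset.mem_map.2 ⟨i, hi, rfl⟩, rfl⟩, ?_⟩
      change v ∈ pd (sw x (Equiv.swap 0 1 i))
      rw [hsx i]
      exact hv

theorem mem_Ex2_sw (hB4 : StmB4) {r : ℕ} (F : Fin r → MvPolynomial (Fin 2) K)
    (I : Finset (Fin 2)) {κ : ℝ} {x : Fin 2 → K} (hx : x ∈ Ex2 F I κ) :
    sw x ∈ Ex2 (fun j => MvPolynomial.rename (Equiv.swap 0 1) (F j))
      (I.map (Equiv.swap 0 1).toEmbedding) κ := by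
  obtain ⟨h1, h2⟩ := hx
  refine ⟨fun j => ?_, ?_⟩
  · rw [eval_sw hB4]
    exact h1 j
  · rw [UU_sw hB4 F I h1, TT_sw hB4, htm_sw]
    exact h2

/-- **one divisor, all boxes** -/
theorem box_exc (hT : Tools) {r : ℕ} (F : Fin r → MvPolynomial (Fin 2) K) (I : Finset (Fin 2))
    (hF : ∀ j, Irreducible (F j)) (hFF : ∀ j k, j ≠ k → ¬ Associated (F j) (F k))
    {κ : ℝ} (hκ0 : 0 < κ) (hκ1 : κ ≤ 1) :
    ∃ Z : Finset K, Box {x : Fin 2 → K | x 0 ∉ Z ∧ x 1 ∉ Z ∧ x ∈ Ex2 F I κ} := by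
  classical
  obtain ⟨Z1, h1⟩ := half_exc hT F I hF hFF hκ0 hκ1
  obtain ⟨Z2, h2⟩ := half_exc hT (fun j => MvPolynomial.rename (Equiv.swap 0 1) (F j))
    (I.map (Equiv.swap 0 1).toEmbedding) (fun j => (hT.b4 K 1 (F j) _).1 (hF j))
    (fun j k hjk => (hT.b4 K 1 (F j) _).2.1 (F k) (hFF j k hjk)) hκ0 hκ1
  refine ⟨Z1 ∪ Z2, (h1.union h2.swap).mono ?_⟩
  rintro x ⟨e0, e1, e2⟩
  rw [Finset.mem_union, not_or] at e0 e1
  rcases le_total (hr (aff (x 1))) (hr (aff (x 0))) with h | h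
  · exact Or.inl ⟨e1.1, h, e2⟩
  · refine Or.inr ?_
    refine ⟨?_, ?_, mem_Ex2_sw hT.b4 F I e2⟩
    · rw [sw_one]
      exact e0.2
    · rw [sw_one, sw_zero]
      exact h

end Pool.Agent.N445.UB
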