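import Mathlib
import Pool.Agent.N445.UB.B7

/-!
# One exceptional set for all divisors
-/

set_option autoImplicit false
set_option linter.unusedSectionVars false

namespace Pool.Agent.N445.UB

open NumberField IsDedekindDomain Finset Pool.Agent.H691R3
open Pool.Agent.TH876.Loc hiding mx mx_nonneg
open Pool.Agent.N753.LS Pool.Agent.N753.SF Pool.Agent.N753.SU Polynomial

variable {K : Type} [Field K] [NumberField K]

variable (K) in
/-- the points of a box -/
def bx2 (H0 H1 : ℝ) : Set (Fin 2 → K) := {x | hr (aff (x 0)) ≤ H0 ∧ hr (aff (x 1)) ≤ H1}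

theorem bx2_htm {H0 H1 : ℝ} {x : Fin 2 → K} (hx : x ∈ bx2 K H0 H1) : htm x ≤ max H0 H1 := by
  refine htm_le two_pos fun i => ?_
  rw [← hr_aff]
  fin_cases i
  · exact hx.1.trans (le_max_left _ _)
  · exact hx.2.trans (le_max_right _ _)

theorem bx2_fin (H0 H1 : ℝ) : (bx2 K H0 H1).Finite :=
  (box_fin (max H0 H1)).subset fun _ hx => bx2_htm hx

/-- **one exceptional set for countably many problems** -/
theorem diag_box (E : ℕ → Set (Fin 2 → K)) (hE : ∀ n, Box (E n)) :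
    ∃ (T : Set (Fin 2 → K)) (h : ℕ → ℝ), (∀ n, ∀ x ∈ E n, x ∉ T → htm x < h n) ∧
      ∀ H0 H1 : ℝ, 0 ≤ H0 → 0 ≤ H1 → ((T ∩ bx2 K H0 H1).ncard : ℝ) ≤
        2 * Real.exp (2 * H0 + 2 * H1 - √(max H0 H1)) := by
  classical
  choose ν C hν hν1 hC0 hC using hE
  obtain ⟨D, hD⟩ : ∃ D : ℕ → ℝ, D = fun n => max (C n) 1 := ⟨_, rfl⟩
  have hD1 : ∀ n, 1 ≤ D n := fun n => by rw [hD]; exact le_max_right _ _
  have hDC : ∀ n, C n ≤ D n := fun n => by rw [hD]; exact le_max_left _ _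
  have hl2 : 0 < Real.log 2 := Real.log_pos (by norm_num)
  have hlD : ∀ n, 0 ≤ Real.log (D n) := fun n => Real.log_nonneg (hD1 n)
  obtain ⟨h, hh⟩ : ∃ h : ℕ → ℝ, h = fun n => max (4 / ν n ^ 2)
    (max (2 * (Real.log (D n) + n * Real.log 2) / ν n) n) := ⟨_, rfl⟩
  have hh1 : ∀ n H, h n ≤ H → Real.log (D n) + n * Real.log 2 + √H ≤ ν n * H := by
    intro n H hH
    rw [hh] at hH
    beta_reduce at hH
    have h1 : 4 / ν n ^ 2 ≤ H := (le_max_left _ _).trans hH
    have h2 : 2 * (Real.log (D n) + n * Real.log 2) / ν n ≤ H :=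
      (le_max_left _ _).trans ((le_max_right _ _).trans hH)
    rw [div_le_iff₀ (hν n)] at h2
    have hH0 : 0 ≤ H := le_trans (by have := hν n; positivity) h1
    have h3 : 2 / ν n ≤ √H := by
      refine Real.le_sqrt_of_sq_le ?_
      rw [div_pow]
      norm_num
      exact h1
    rw [div_le_iff₀ (hν n)] at h3
    have h4 : √H * √H = H := Real.mul_self_sqrt hH0
    have h5 : 0 ≤ √H := Real.sqrt_nonneg _
    have h6 := mul_le_mul_of_nonneg_left h3 h5
    have h7 : √H * (√H * ν n) = ν n * H := by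
      rw [← mul_assoc, h4, mul_comm]
    rw [h7] at h6
    linarith
  have hhn : ∀ n : ℕ, (n : ℝ) ≤ h n := fun n => by
    rw [hh]
    exact (le_max_right _ _).trans (le_max_right _ _)
  refine ⟨⋃ n, E n ∩ {x | h n ≤ htm x}, h, ?_, ?_⟩
  · intro n x hx hxT
    by_contra hcon
    rw [not_lt] at hcon
    exact hxT (Set.mem_iUnion.2 ⟨n, hx, hcon⟩)
  · intro H0 H1 hH0 hH1
    obtain ⟨H, hH⟩ : ∃ H : ℝ, H = max H0 H1 := ⟨_, rfl⟩
    rw [← hH]
    obtain ⟨N, hN⟩ := exists_nat_gt H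
    have hNn : ∀ n, N ≤ n → H < h n := by
      intro n hn
      have h1 : (N : ℝ) ≤ n := by exact_mod_cast hn
      linarith [hhn n]
    -- the pieces
    let A : ℕ → Finset (Fin 2 → K) := fun n =>
      if h n ≤ H then ((bx2_fin H0 H1).subset (Set.inter_subset_right (s := E n))).toFinset
      else ∅
    have hsub : (⋃ n, E n ∩ {x | h n ≤ htm x}) ∩ bx2 K H0 H1 ⊆
        (((Finset.range N).biUnion A : Finset (Fin 2 → K)) : Set (Fin 2 → K)) := by
      rintro x ⟨hx, hxH⟩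
      obtain ⟨n, hxn, hn⟩ := Set.mem_iUnion.1 hx
      have hn' : h n ≤ htm x := hn
      have hxH' : htm x ≤ H := by
        rw [hH]
        exact bx2_htm hxH
      have hnH : h n ≤ H := hn'.trans hxH'
      rw [Finset.mem_coe, Finset.mem_biUnion]
      refine ⟨n, ?_, ?_⟩
      · rw [Finset.mem_range]
        by_contra hcon
        exact absurd hnH (not_le.2 (hNn n (not_lt.1 hcon)))
      · show x ∈ if h n ≤ H then _ else _
        rw [if_pos hnH, Set.Finite.mem_toFinset]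
        exact ⟨hxn, hxH⟩
    have hcard : ∀ n, ((A n).card : ℝ) ≤ (1 / 2) ^ n * Real.exp (2 * H0 + 2 * H1 - √H) := by
      intro n
      by_cases hn : h n ≤ H
      · have e : A n = ((bx2_fin H0 H1).subset
          (Set.inter_subset_right (s := E n))).toFinset := if_pos hn
        rw [e]
        refine (hC n H0 H1 hH0 hH1 _ fun x hx => ?_).trans ?_
        · rw [Set.Finite.mem_toFinset] at hx
          exact ⟨hx.1, hx.2.1, hx.2.2⟩
        rw [← hH]
        have h2 := hh1 n H hn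
        have h3 : (1 / 2 : ℝ) ^ n = Real.exp (-(n * Real.log 2)) := by
          rw [Real.exp_neg, Real.exp_nat_mul, Real.exp_log (by norm_num), _root_.one_div, inv_pow]
        have h0 : 0 < D n := by linarith [hD1 n]
        calc C n * Real.exp (2 * H0 + 2 * H1 - ν n * H)
            ≤ D n * Real.exp (2 * H0 + 2 * H1 - ν n * H) :=
              mul_le_mul_of_nonneg_right (hDC n) (Real.exp_pos _).le
          _ = Real.exp (Real.log (D n) + (2 * H0 + 2 * H1 - ν n * H)) := by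
              rw [Real.exp_add, Real.exp_log h0]
          _ ≤ Real.exp (-(n * Real.log 2) + (2 * H0 + 2 * H1 - √H)) :=
              Real.exp_le_exp.2 (by linarith)
          _ = _ := by rw [Real.exp_add, h3]
      · have e : A n = ∅ := if_neg hn
        rw [e, Finset.card_empty, Nat.cast_zero]
        positivity
    calc (((⋃ n, E n ∩ {x | h n ≤ htm x}) ∩ bx2 K H0 H1).ncard : ℝ)
        ≤ (((((Finset.range N).biUnion A : Finset (Fin 2 → K)) : Set (Fin 2 → K))).ncard : ℝ) := by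
          exact_mod_cast Set.ncard_le_ncard hsub (Finset.finite_toSet _)
      _ = (((Finset.range N).biUnion A).card : ℝ) := by rw [Set.ncard_coe_finset]
      _ ≤ ∑ n ∈ Finset.range N, ((A n).card : ℝ) := by exact_mod_cast Finset.card_biUnion_le
      _ ≤ ∑ n ∈ Finset.range N, (1 / 2) ^ n * Real.exp (2 * H0 + 2 * H1 - √H) :=
          Finset.sum_le_sum fun n _ => hcard n
      _ = (∑ n ∈ Finset.range N, (1 / 2 : ℝ) ^ n) * Real.exp (2 * H0 + 2 * H1 - √H) := by
          rw [Finset.sum_mul]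
      _ ≤ 2 * Real.exp (2 * H0 + 2 * H1 - √H) := by
          refine mul_le_mul_of_nonneg_right ?_ (Real.exp_pos _).le
          have h1 := summable_geometric_two.sum_le_tsum (Finset.range N)
            (fun n _ => by positivity)
          rw [tsum_geometric_two] at h1
          exact h1

theorem box_empty : Box (∅ : Set (Fin 2 → K)) := by
  refine ⟨1, 1, one_pos, le_rfl, one_pos, fun H0 H1 _ _ S hS => ?_⟩
  have : S = ∅ := Finset.eq_empty_of_forall_notMem fun x hx => (hS x hx).1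
  rw [this, Finset.card_empty, Nat.cast_zero]
  positivity

variable (K) in
open Classical in
/-- **one exceptional set for all divisors** -/
theorem all_box (hT : Tools) :
    ∃ E : Set (Fin 2 → K), (∀ H0 H1 : ℝ, 0 ≤ H0 → 0 ≤ H1 → ((E ∩ bx2 K H0 H1).ncard : ℝ) ≤
        2 * Real.exp (2 * H0 + 2 * H1 - √(max H0 H1))) ∧
      ∀ (r : ℕ) (F : Fin r → MvPolynomial (Fin 2) K) (I : Finset (Fin 2)),
        (∀ j, Irreducible (F j)) → (∀ j k, j ≠ k → ¬ Associated (F j) (F k)) → ∀ κ : ℝ, 0 < κ →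
        ∃ (Z : Finset K) (h0 : ℝ), ∀ x : Fin 2 → K, x ∉ E → x 0 ∉ Z → x 1 ∉ Z → h0 ≤ htm x →
          (∀ j, MvPolynomial.eval x (F j) ≠ 0) →
            TT F I x - κ * htm x ≤ ∑ v ∈ UU F I x, Real.log (Nv v) := by
  have hc := countable_mv K 2
  obtain ⟨e, he⟩ := exists_surjective_nat
    ((Σ r : ℕ, Fin r → MvPolynomial (Fin 2) K) × Finset (Fin 2) × ℕ)
  have hex : ∀ d : (Σ r : ℕ, Fin r → MvPolynomial (Fin 2) K) × Finset (Fin 2) × ℕ,
      ∃ Z : Finset K, ((∀ j, Irreducible (d.1.2 j)) ∧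
        (∀ j k, j ≠ k → ¬ Associated (d.1.2 j) (d.1.2 k))) →
          Box {x : Fin 2 → K | x 0 ∉ Z ∧ x 1 ∉ Z ∧ x ∈ Ex2 d.1.2 d.2.1 (1 / (d.2.2 + 1 : ℝ))} := by
    intro d
    by_cases hd : (∀ j, Irreducible (d.1.2 j)) ∧
        (∀ j k, j ≠ k → ¬ Associated (d.1.2 j) (d.1.2 k))
    · obtain ⟨Z, hZ⟩ := box_exc hT d.1.2 d.2.1 hd.1 hd.2 (κ := 1 / (d.2.2 + 1 : ℝ))
        (by positivity) (by
          rw [div_le_one (by positivity)]
          linarith [(Nat.cast_nonneg d.2.2 : (0 : ℝ) ≤ (d.2.2 : ℝ))])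
      exact ⟨Z, fun _ => hZ⟩
    · exact ⟨∅, fun h => absurd h hd⟩
  choose Z hZ using hex
  obtain ⟨T, h, hT1, hT2⟩ := diag_box (K := K)
    (fun n => if (∀ j, Irreducible ((e n).1.2 j)) ∧
      (∀ j k, j ≠ k → ¬ Associated ((e n).1.2 j) ((e n).1.2 k)) then
        {x : Fin 2 → K | x 0 ∉ Z (e n) ∧ x 1 ∉ Z (e n) ∧
          x ∈ Ex2 (e n).1.2 (e n).2.1 (1 / ((e n).2.2 + 1 : ℝ))} else ∅) (by
      intro n
      beta_reduce
      split_ifs with hn
      · exact hZ (e n) hn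
      · exact box_empty)
  refine ⟨T, hT2, ?_⟩
  intro r F I hF hFF κ hκ
  obtain ⟨k, hk⟩ := exists_nat_gt (1 / κ)
  have hk2 : 1 / (k + 1 : ℝ) ≤ κ := by
    rw [div_lt_iff₀ hκ] at hk
    rw [div_le_iff₀ (by positivity)]
    nlinarith
  obtain ⟨n, hn⟩ := he (⟨r, F⟩, I, k)
  refine ⟨Z (⟨r, F⟩, I, k), h n, fun x hxT hx0' hx1' hxh hx0 => ?_⟩
  have h1 : x ∉ Ex2 F I (1 / (k + 1 : ℝ)) := by
    intro hx
    have h2 := hT1 n x (by
      rw [hn, if_pos ⟨hF, hFF⟩]
      exact ⟨hx0', hx1', hx⟩) hxT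
    linarith
  have h0 : 0 ≤ htm x := by
    have h2 := le_htm x 0
    rw [← hr_aff] at h2
    exact (hr_aff_nonneg _).trans h2
  have h3 : ¬ ∑ v ∈ UU F I x, Real.log (Nv v) < TT F I x - 1 / (k + 1 : ℝ) * htm x :=
    fun h => h1 ⟨hx0, h⟩
  have h4 := mul_le_mul_of_nonneg_right hk2 h0
  have h5 := not_lt.1 h3
  linarith

/-- **ample heights**: the bound for boxes gives a bound for each ample height -/
theorem ample {E : Set (Fin 2 → K)} (hE : ∀ H0 H1 : ℝ, 0 ≤ H0 → 0 ≤ H1 →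
    ((E ∩ bx2 K H0 H1).ncard : ℝ) ≤ 2 * Real.exp (2 * H0 + 2 * H1 - √(max H0 H1)))
    {α β : ℝ} (hα : 0 < α) (hβ : 0 < β) {H : ℝ} (hH : 0 ≤ H) :
    (E ∩ {x | α * hr (aff (x 0)) + β * hr (aff (x 1)) ≤ H}).Finite ∧
    ((E ∩ {x | α * hr (aff (x 0)) + β * hr (aff (x 1)) ≤ H}).ncard : ℝ) ≤
      2 * Real.exp 2 * (H / α + 1) *
        Real.exp (max (2 / α) (2 / β) * H - √(H / (α + β))) := by
  classical
  obtain ⟨θ, hθ⟩ : ∃ θ : ℝ, θ = max (2 / α) (2 / β) := ⟨_, rfl⟩
  have hθα : 2 ≤ θ * α := by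
    have : 2 / α ≤ θ := by rw [hθ]; exact le_max_left _ _
    rwa [div_le_iff₀ hα] at this
  have hθβ : 2 / β ≤ θ := by rw [hθ]; exact le_max_right _ _
  let A : ℕ → Finset (Fin 2 → K) := fun i =>
    ((bx2_fin (i + 1) ((H - α * i) / β)).subset (Set.inter_subset_right (s := E))).toFinset
  have hsub : E ∩ {x | α * hr (aff (x 0)) + β * hr (aff (x 1)) ≤ H} ⊆
      (((Finset.range (⌊H / α⌋₊ + 1)).biUnion A : Finset (Fin 2 → K)) : Set (Fin 2 → K)) := by
    rintro x ⟨hxE, hxH⟩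
    have hxH' : α * hr (aff (x 0)) + β * hr (aff (x 1)) ≤ H := hxH
    have h0 : 0 ≤ hr (aff (x 0)) := hr_aff_nonneg _
    have h1 : 0 ≤ hr (aff (x 1)) := hr_aff_nonneg _
    have h2 : hr (aff (x 0)) ≤ H / α := by
      rw [le_div_iff₀ hα]
      have := mul_nonneg hβ.le h1
      linarith
    rw [Finset.mem_coe, Finset.mem_biUnion]
    refine ⟨⌊hr (aff (x 0))⌋₊, ?_, ?_⟩
    · rw [Finset.mem_range, Nat.lt_succ_iff]
      exact Nat.floor_le_floor h2
    · rw [Set.Finite.mem_toFinset]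
      refine ⟨hxE, (Nat.lt_floor_add_one _).le, ?_⟩
      rw [le_div_iff₀ hβ]
      have h3 := mul_le_mul_of_nonneg_left (Nat.floor_le h0) hα.le
      linarith
  have hfin : (E ∩ {x | α * hr (aff (x 0)) + β * hr (aff (x 1)) ≤ H}).Finite :=
    (Finset.finite_toSet _).subset hsub
  refine ⟨hfin, ?_⟩
  have hcard : ∀ i ∈ Finset.range (⌊H / α⌋₊ + 1), ((A i).card : ℝ) ≤
      2 * Real.exp 2 * Real.exp (θ * H - √(H / (α + β))) := by
    intro i hi
    rw [Finset.mem_range, Nat.lt_succ_iff] at hi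
    have hi' : (i : ℝ) ≤ H / α := (Nat.cast_le.2 hi).trans (Nat.floor_le (by positivity))
    rw [le_div_iff₀ hα] at hi'
    have hi0 : (0 : ℝ) ≤ i := Nat.cast_nonneg _
    have hH1 : 0 ≤ (H - α * i) / β := div_nonneg (by linarith) hβ.le
    have e : ((A i).card : ℝ) = ((E ∩ bx2 K (i + 1) ((H - α * i) / β)).ncard : ℝ) := by
      rw [Set.ncard_eq_toFinset_card _ ((bx2_fin (i + 1) ((H - α * i) / β)).subset
        (Set.inter_subset_right (s := E)))]
    rw [e]
    refine (hE _ _ (by positivity) hH1).trans ?_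
    rw [mul_assoc, ← Real.exp_add]
    refine mul_le_mul_of_nonneg_left (Real.exp_le_exp.2 ?_) zero_le_two
    have h1 : H / (α + β) ≤ max ((i : ℝ) + 1) ((H - α * i) / β) := by
      rw [div_le_iff₀ (by positivity)]
      have e1 := mul_le_mul_of_nonneg_left (le_max_left ((i : ℝ) + 1) ((H - α * i) / β)) hα.le
      have e2 := mul_le_mul_of_nonneg_left (le_max_right ((i : ℝ) + 1) ((H - α * i) / β)) hβ.le
      have e3 : β * ((H - α * i) / β) = H - α * i := by field_simp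
      linarith
    have h2 := Real.sqrt_le_sqrt h1
    have h3 : 2 * ((H - α * i) / β) = 2 / β * (H - α * i) := by ring
    have h4 : 2 / β * (H - α * i) ≤ θ * (H - α * i) :=
      mul_le_mul_of_nonneg_right hθβ (by linarith)
    have h5 := mul_le_mul_of_nonneg_right hθα hi0
    linarith
  calc ((E ∩ {x | α * hr (aff (x 0)) + β * hr (aff (x 1)) ≤ H}).ncard : ℝ)
      ≤ (((((Finset.range (⌊H / α⌋₊ + 1)).biUnion A : Finset (Fin 2 → K)) :
          Set (Fin 2 → K))).ncard : ℝ) := by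
        exact_mod_cast Set.ncard_le_ncard hsub (Finset.finite_toSet _)
    _ = (((Finset.range (⌊H / α⌋₊ + 1)).biUnion A).card : ℝ) := by rw [Set.ncard_coe_finset]
    _ ≤ ∑ i ∈ Finset.range (⌊H / α⌋₊ + 1), ((A i).card : ℝ) := by
        exact_mod_cast Finset.card_biUnion_le
    _ ≤ ∑ i ∈ Finset.range (⌊H / α⌋₊ + 1), 2 * Real.exp 2 *
          Real.exp (θ * H - √(H / (α + β))) := Finset.sum_le_sum hcard
    _ ≤ 2 * Real.exp 2 * (H / α + 1) * Real.exp (θ * H - √(H / (α + β))) := by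
        rw [Finset.sum_const, nsmul_eq_mul, Finset.card_range]
        have h1 : ((⌊H / α⌋₊ + 1 : ℕ) : ℝ) ≤ H / α + 1 := by
          push_cast
          have := Nat.floor_le (show 0 ≤ H / α by positivity)
          linarith
        have h2 : 0 ≤ 2 * Real.exp 2 * Real.exp (θ * H - √(H / (α + β))) := by positivity
        have h3 := mul_le_mul_of_nonneg_right h1 h2
        linarith
    _ = _ := by rw [hθ]

end Pool.Agent.N445.UB
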